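import Pool.Agent.Helper62.MU.St

/-!
# Project MU: assembly
-/

set_option autoImplicit false

open MeasureTheory Metric Set Filter Topology Polynomial
open scoped RealInnerProductSpace ContDiff

namespace Pool.Agent.Helper62.MU

open Pool.Agent.Helper62.Mink

/-- all module statements -/
structure AllSt : Prop where
  PL : StPL
  SLI : StSLI
  SYM : StSYM
  ROT : StROT
  ID : StID
  AB : StAB
  QN : StQN
  OD : StOD
  SEG : StSEG
  APX : StAPX

theorem key_std (H : AllSt) (m : ℕ) (p : ℝ[X]) (hm : 1 ≤ m) (hp : EvA p) (hN : Nrm m p)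
    (h : E (m + 2) → ℝ) (hh : Sublinear h) (hC : ContDiffOn ℝ ∞ h {0}ᶜ) :
    0 ≤ SI (Kst m p h) := by
  obtain ⟨hi, he⟩ := H.SLI m p h hh
  obtain ⟨s1, s2, s3, s4⟩ := H.SYM m p h hp.1 hh hC hi
  obtain ⟨d1, d2, d3, c1, c2, b2, b0, C, hg⟩ := H.AB m (sy h) s1 s2 s3
  rw [he, s4]
  exact H.OD m p (av (sy h)) (bv (sy h)) (av1 (sy h)) (bv1 (sy h)) (bv2 (sy h)) C hm hp hN d1 d2 d3
    c1 c2 b2 b0 hg (fun x hx => H.QN m (sy h) s1 s2 x hx)

theorem subadd_polyA (H : AllSt) {n : ℕ} (hn : 3 ≤ n) {h : E n → ℝ} (hh : Sublinear h) (p : ℝ[X])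
    (hp : EvA p) (h0 : seg n (fun x => p.eval x) = 0) (x y : E n) :
    conv h (fun t => p.eval t) (x + y)
      ≤ conv h (fun t => p.eval t) x + conv h (fun t => p.eval t) y := by
  obtain ⟨m, rfl⟩ : ∃ m, n = m + 2 := ⟨n - 2, by omega⟩
  have hm : 1 ≤ m := by omega
  have hpc : ContinuousOn (fun t => p.eval t) (Icc (-1 : ℝ) 1) := p.continuous.continuousOn
  have hN : Nrm m p := by
    unfold Nrm
    rw [H.SEG m (fun t => p.eval t) hm hpc (fun x _ => hp.1 x), h0]
    ring
  obtain ⟨M, hM0, hM⟩ := exists_bdd hpc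
  refine subadd_lim hh.continuous hpc hM0 (fun ε hε => ?_) x y
  obtain ⟨h', hs, hC, hclose⟩ := exists_smooth hh hε
  refine ⟨h', fun t => p.eval t, hs.continuous, hpc, ?_, ?_⟩
  · intro w hw t ht
    have h1 := hclose w
    rw [hw, mul_one] at h1
    rw [← sub_mul, abs_mul]
    have h2 : |h w - h' w| ≤ ε := by rw [abs_sub_comm]; exact h1
    exact mul_le_mul h2 (hM t ht) (abs_nonneg _) hε.le
  · exact conv_add_le_of_key (by omega) hs p
      (fun u v hu hv huv => H.ROT m p (fun h hh hC => key_std H m p hm hp hN h hh hC) h' hs hC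
        u v hu hv huv)

theorem subadd_uni (H : AllSt) {n : ℕ} (hn : 3 ≤ n) {h : E n → ℝ} (hh : Sublinear h) {k : ℝ → ℝ}
    (hk : ContinuousOn k (Icc 0 1)) (hA : AntitoneOn k (Icc 0 1))
    (h0 : seg n (fun t => k |t|) = 0) (x y : E n) :
    conv h (fun t => k |t|) (x + y) ≤ conv h (fun t => k |t|) x + conv h (fun t => k |t|) y := by
  have hf : ContinuousOn (fun t : ℝ => k |t|) (Icc (-1) 1) :=
    hk.comp continuous_abs.continuousOn fun t ht => ⟨abs_nonneg t, abs_le.2 ht⟩
  obtain ⟨M, hM0, hM⟩ := exists_bdd_h hh.continuous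
  refine subadd_lim hh.continuous hf hM0 (fun ε hε => ?_) x y
  obtain ⟨p, hp1, hp2, hp3⟩ := H.APX n k hn hk hA h0 ε hε
  refine ⟨h, fun t => p.eval t, hh.continuous, p.continuous.continuousOn, ?_, ?_⟩
  · intro w hw t ht
    rw [← mul_sub, abs_mul, mul_comm ε]
    refine mul_le_mul (hM w hw) ?_ (abs_nonneg _) hM0
    rw [abs_sub_comm]; exact hp2 t ht
  · exact subadd_polyA H hn hh p hp1 hp3

/-- constants -/
theorem subadd_const {n : ℕ} {h : E n → ℝ} (hh : Sublinear h) {c : ℝ} (hc : 0 ≤ c) (x y : E n) :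
    conv h (fun _ => c) (x + y) ≤ conv h (fun _ => c) x + conv h (fun _ => c) y := by
  have hi : Integrable (fun w : sphere (0 : E n) 1 => h w) (volume : Measure (E n)).toSphere :=
    sphere_integrable hh.continuous.continuousOn
  have hi' : Integrable (fun w : sphere (0 : E n) 1 => h (-(w : E n)))
      (volume : Measure (E n)).toSphere :=
    sphere_integrable (φ := fun w => h (-w)) (hh.continuous.comp continuous_neg).continuousOn
  have hS : 0 ≤ SI h := by
    have e1 := sphere_integral_comp (LinearIsometryEquiv.neg ℝ (E := E n)) h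
    simp only [LinearIsometryEquiv.coe_neg] at e1
    have h2 : 0 ≤ ∫ w : sphere (0 : E n) 1, (h w + h (-(w : E n)))
        ∂(volume : Measure (E n)).toSphere := by
      refine integral_nonneg fun w => ?_
      have := hh.add_le (w : E n) (-(w : E n))
      rw [add_neg_cancel, hh.map_zero] at this
      exact this
    rw [integral_add hi hi', e1] at h2
    unfold SI
    linarith
  have e : ∀ z : E n, conv h (fun _ => c) z = c * SI h * ‖z‖ := by
    intro z
    unfold conv SI
    rw [mul_assoc, mul_comm (∫ w, _ ∂_) ‖z‖, ← integral_const_mul, ← integral_const_mul]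
    refine integral_congr_ae (Filter.Eventually.of_forall fun w => ?_)
    simp only; ring
  rw [e, e, e, ← mul_add]
  exact mul_le_mul_of_nonneg_left (norm_add_le x y) (mul_nonneg hc hS)

theorem seg_const (n : ℕ) (c : ℝ) : seg n (fun _ => c) = c * seg n (fun _ => 1) := by
  rw [← seg_const_mul]; simp

/-- the segment test with nonnegative value -/
theorem subadd_uni' (H : AllSt) {n : ℕ} (hn : 3 ≤ n) {h : E n → ℝ} (hh : Sublinear h) {k : ℝ → ℝ}
    (hk : ContinuousOn k (Icc 0 1)) (hA : AntitoneOn k (Icc 0 1))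
    (h0 : 0 ≤ seg n (fun t => k |t|)) (x y : E n) :
    conv h (fun t => k |t|) (x + y) ≤ conv h (fun t => k |t|) x + conv h (fun t => k |t|) y := by
  have hf : ContinuousOn (fun t : ℝ => k |t|) (Icc (-1) 1) :=
    hk.comp continuous_abs.continuousOn fun t ht => ⟨abs_nonneg t, abs_le.2 ht⟩
  set c := seg n (fun t => k |t|) / seg n (fun _ => 1) with hc
  have hc0 : 0 ≤ c := div_nonneg h0 (seg_one_pos n).le
  have hk' : ContinuousOn (fun t => k t + (-c)) (Icc 0 1) := hk.add continuousOn_const
  have hA' : AntitoneOn (fun t => k t + (-c)) (Icc 0 1) := fun a ha b hb hab =>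
    add_le_add_left (hA ha hb hab) _
  have hf' : ContinuousOn (fun t : ℝ => k |t| + (-c)) (Icc (-1) 1) := hf.add continuousOn_const
  have hs : seg n (fun t => k |t| + (-c)) = 0 := by
    rw [seg_add hf continuousOn_const, seg_const, hc, neg_mul, div_mul_cancel₀ _ (seg_one_pos n).ne']
    ring
  have h1 := subadd_uni H hn hh hk' hA' hs x y
  have h2 := subadd_const hh hc0 x y
  have e : ∀ z : E n, conv h (fun t => k |t|) z = conv h (fun t => k |t| + (-c)) z
      + conv h (fun _ => c) z := by
    intro z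
    rw [← conv_add_f hh.continuous hf' continuousOn_const]
    congr 1
    funext t; ring
  rw [e, e, e]
  linarith

theorem main_MU (H : AllSt) (n : ℕ) (hn : 3 ≤ n) (e : E n) (he : ‖e‖ = 1) (g k : ℝ → ℝ)
    (hg : ContinuousOn g (Icc (-1) 1)) (hc : ConcaveOn ℝ (Icc (-1) 1) g)
    (hk : ContinuousOn k (Icc 0 1)) (hA : AntitoneOn k (Icc 0 1)) :
    (∃ T : ConvexBody (E n) → ConvexBody (E n), Admissible T ∧
        Generates e (fun t => g t + k |t|) T) ↔
      0 ≤ ∫ θ in (0 : ℝ)..Real.pi,
        (g (Real.cos θ) + k |Real.cos θ|) * Real.cos θ ^ 2 * Real.sin θ ^ (n - 3) := by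
  have hf : ContinuousOn (fun t : ℝ => k |t|) (Icc (-1) 1) :=
    hk.comp continuous_abs.continuousOn fun t ht => ⟨abs_nonneg t, abs_le.2 ht⟩
  have hgk : ContinuousOn (fun t : ℝ => g t + k |t|) (Icc (-1) 1) := hg.add hf
  constructor
  · intro h
    have := segment_test n hn e he _ hgk h 1 ⟨zero_le_one, le_rfl⟩
    simpa using this
  · intro h
    have h' : 0 ≤ seg n (fun t => g t + k |t|) := h
    refine exists_admissible hgk (fun h hh x y => ?_) he
    set c := seg n g / seg n (fun _ => 1) with hcd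
    have hg' : ContinuousOn (fun t => g t + (-c)) (Icc (-1) 1) := hg.add continuousOn_const
    have hc' : ConcaveOn ℝ (Icc (-1) 1) (fun t => g t + (-c)) := hc.add_const (-c)
    have hs : seg n (fun t => g t + (-c)) = 0 := by
      rw [seg_add hg continuousOn_const, seg_const, hcd, neg_mul,
        div_mul_cancel₀ _ (seg_one_pos n).ne']
      ring
    have h1 := subadd_main hn hh hg'
      (concave_star hc' (concave_zero hg' hc' hs.ge)) hs.ge x y
    have hk' : ContinuousOn (fun t => k t + c) (Icc 0 1) := hk.add continuousOn_const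
    have hA' : AntitoneOn (fun t => k t + c) (Icc 0 1) := fun a ha b hb hab =>
      add_le_add_left (hA ha hb hab) _
    have hf' : ContinuousOn (fun t : ℝ => k |t| + c) (Icc (-1) 1) := hf.add continuousOn_const
    have hs2 : 0 ≤ seg n (fun t => k |t| + c) := by
      rw [seg_add hg hf] at h'
      rw [seg_add hf continuousOn_const, seg_const, hcd, div_mul_cancel₀ _ (seg_one_pos n).ne']
      linarith
    have h2 := subadd_uni' H hn hh hk' hA' hs2 x y
    have e1 : ∀ z : E n, conv h (fun t => g t + k |t|) z = conv h (fun t => g t + (-c)) z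
        + conv h (fun t => k |t| + c) z := by
      intro z
      rw [← conv_add_f hh.continuous hg' hf']
      congr 1
      funext t; ring
    rw [e1, e1, e1]
    linarith

end Pool.Agent.Helper62.MU
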