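import Pool.Agent.Helper62.MU.St2

/-!
# Project MU part 2: assembly
-/

set_option autoImplicit false

open MeasureTheory Metric Set Filter Topology Polynomial
open scoped RealInnerProductSpace ContDiff

namespace Pool.Agent.Helper62.MU2

open Pool.Agent.Helper62.Mink

/-- all module statements -/
structure AllSt : Prop where
  ZD : StZD
  ZF : StZF
  ZG : StZG
  ZO : StZO
  NU : StNU

theorem dc_test (H : AllSt) (m : ℕ) (hm : 1 ≤ m) (e : E (m + 2)) (he : ‖e‖ = 1) (f : ℝ → ℝ)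
    (hf : ContinuousOn f (Icc (-1) 1))
    (h : ∃ T : ConvexBody (E (m + 2)) → ConvexBody (E (m + 2)), Admissible T ∧ Generates e f T)
    (β α : ℝ) (h0 : 0 ≤ β) (h1 : β < Real.pi / 2) (h2 : Real.pi / 2 < α) (h3 : α ≤ Real.pi) :
    0 ≤ DCe m f β α := by
  obtain ⟨T, _, hG⟩ := h
  have hgood : Good (m + 2) f := fun h hh hC x y =>
    subadd_of_admissible (by omega) he hG hh hC x y
  exact H.ZG m f hm hf (H.ZF m f hm hf (H.ZD m f hm hf hgood)) β α h0 h1 h2 h3

/-- the parameter of the example -/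
noncomputable def ax (m : ℕ) : ℝ := 1 / (10 * ((m : ℝ) + 5))

theorem fx_even (m : ℕ) (a t : ℝ) : (fx m a).eval (-t) = (fx m a).eval t := by
  unfold fx
  simp only [eval_add, eval_sub, eval_mul, eval_C, eval_pow, eval_X]
  ring

theorem ex_zonoid (H : AllSt) (m : ℕ) (hm : 1 ≤ m) (Z : ConvexBody (E (m + 2)))
    (hZ : ∃ ρ : Measure (sphere (0 : E (m + 2)) 1), IsFiniteMeasure ρ ∧
      ∀ w, supp Z w = ∫ u, |(inner ℝ (u : E (m + 2)) w : ℝ)| ∂ρ) :
    ∃ L : ConvexBody (E (m + 2)), ∀ x, supp L x = conv (supp Z) (fun t => (fx m (ax m)).eval t) x := by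
  obtain ⟨ρ, hρ, hs⟩ := hZ
  have h1 := H.ZO m (ax m) ρ hm hρ
  have e : supp Z = fun w => ∫ u, |(inner ℝ (u : E (m + 2)) w : ℝ)| ∂ρ := funext hs
  obtain ⟨L, hL⟩ := exists_body h1
  exact ⟨L, fun x => by rw [hL, e]⟩

theorem ex_not (H : AllSt) (m : ℕ) (hm : 1 ≤ m) (e : E (m + 2)) (he : ‖e‖ = 1) :
    ¬ ∃ T : ConvexBody (E (m + 2)) → ConvexBody (E (m + 2)), Admissible T ∧
      Generates e (fun t => (fx m (ax m)).eval t) T := by
  intro h
  obtain ⟨β, h0, h1, h2⟩ := H.NU m hm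
  have h3 := dc_test H m hm e he _ (fx m (ax m)).continuous.continuousOn h β (Real.pi - β) h0 h1
    (by linarith) (by linarith)
  exact absurd h3 (not_le.2 h2)

end Pool.Agent.Helper62.MU2
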