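import Pool.Agent.Helper62.MU.St

set_option autoImplicit false

/-! Module GL of project MU (MP_ae3a4d_gt): limits of `γ` and `γ'`. -/

open MeasureTheory Metric Set Filter Topology Polynomial

namespace Pool.Agent.Helper62.MU.GL

open Pool.Agent.Helper62.MU Pool.Agent.Helper62.Mink

theorem sg_sq (x : ℝ) : sg x ^ 2 = 1 + x ^ 2 := by
  unfold sg
  exact Real.sq_sqrt (by positivity)

theorem one_le_sg (x : ℝ) : 1 ≤ sg x := by
  unfold sg
  rw [Real.one_le_sqrt]
  nlinarith [sq_nonneg x]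

theorem sg_pos (x : ℝ) : 0 < sg x := lt_of_lt_of_le one_pos (one_le_sg x)

theorem sg_cont : Continuous sg := by
  unfold sg
  fun_prop

theorem le_sg {x : ℝ} (_hx : 0 ≤ x) : x ≤ sg x := by
  unfold sg
  exact Real.le_sqrt_of_sq_le (by linarith [sq_nonneg x])

theorem tau_mem {x : ℝ} (hx : 0 ≤ x) : x / sg x ∈ Icc (0 : ℝ) 1 :=
  ⟨div_nonneg hx (sg_pos x).le, by rw [div_le_one (sg_pos x)]; exact le_sg hx⟩

theorem ta_cont : Continuous (fun y => y / sg y) :=
  continuous_id.div sg_cont (fun x => (sg_pos x).ne')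

theorem ev_cont (P : ℝ[X]) : Continuous (fun y => P.eval (y / sg y)) :=
  P.continuous.comp ta_cont

theorem Aa_cont (m : ℕ) (p : ℝ[X]) : Continuous (Aa m p) := by
  unfold Aa
  exact ((ev_cont p).sub (ta_cont.mul (ev_cont _))).div (sg_cont.pow _)
    (fun x => (pow_pos (sg_pos x) _).ne')

theorem xi_cont (m : ℕ) : Continuous (xi m) := by
  unfold xi
  exact (by fun_prop : Continuous fun x : ℝ => 1 + ((m : ℝ) + 2) / 2 * x ^ 2).div (sg_cont.pow _)
    (fun x => (pow_pos (sg_pos x) _).ne')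

theorem gg_cont (p : ℝ[X]) : Continuous (gg p) := by
  unfold gg
  exact sg_cont.mul (ev_cont p)

theorem g1_cont (p : ℝ[X]) : Continuous (g1 p) := by
  unfold g1
  exact (ta_cont.mul (ev_cont p)).add ((ev_cont _).div (sg_cont.pow _)
    (fun x => (pow_pos (sg_pos x) _).ne'))

theorem sg_zero : sg 0 = 1 := by
  unfold sg
  simp

/-- a common bound for `p`, `p'`, `p''` on `[0,1]` -/
theorem exists_bd (p : ℝ[X]) : ∃ C : ℝ, 0 ≤ C ∧ ∀ t ∈ Icc (0 : ℝ) 1,
    |p.eval t| ≤ C ∧ |p.derivative.eval t| ≤ C ∧ |p.derivative.derivative.eval t| ≤ C := by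
  have h : ∀ q : ℝ[X], ∃ C : ℝ, 0 ≤ C ∧ ∀ t ∈ Icc (0 : ℝ) 1, |q.eval t| ≤ C := by
    intro q
    obtain ⟨C, hC⟩ := isCompact_Icc.exists_bound_of_continuousOn (s := Icc (0 : ℝ) 1)
      (f := fun t => q.eval t) q.continuous.continuousOn
    refine ⟨|C|, abs_nonneg C, fun t ht => ?_⟩
    have := hC t ht
    rw [Real.norm_eq_abs] at this
    exact this.trans (le_abs_self C)
  obtain ⟨C0, h0, H0⟩ := h p
  obtain ⟨C1, h1, H1⟩ := h p.derivative
  obtain ⟨C2, h2, H2⟩ := h p.derivative.derivative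
  refine ⟨C0 + C1 + C2, by positivity, fun t ht => ⟨?_, ?_, ?_⟩⟩
  · linarith [H0 t ht]
  · linarith [H1 t ht]
  · linarith [H2 t ht]

/-- `ξ ≤ (n/2 + 1) σ^(-m)` -/
theorem xi_bd (m : ℕ) (x : ℝ) : 0 ≤ xi m x ∧ xi m x ≤ ((m : ℝ) + 2) / sg x ^ m := by
  have hS := sg_pos x
  have hm : (0 : ℝ) ≤ m := Nat.cast_nonneg m
  constructor
  · unfold xi
    positivity
  · unfold xi
    rw [div_le_div_iff₀ (by positivity) (by positivity)]
    have h1 : 1 + ((m : ℝ) + 2) / 2 * x ^ 2 ≤ ((m : ℝ) + 2) * sg x ^ 2 := by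
      rw [sg_sq]
      nlinarith [sq_nonneg x, mul_nonneg hm (sq_nonneg x)]
    calc (1 + ((m : ℝ) + 2) / 2 * x ^ 2) * sg x ^ m ≤ (((m : ℝ) + 2) * sg x ^ 2) * sg x ^ m :=
          mul_le_mul_of_nonneg_right h1 (by positivity)
      _ = ((m : ℝ) + 2) * sg x ^ (m + 2) := by ring

theorem inv_pow_le {m : ℕ} (k : ℕ) {x : ℝ} (hx : 0 < x) (hk : k ≤ m) :
    1 / sg x ^ m ≤ 1 / x ^ k := by
  have h1 : x ^ k ≤ sg x ^ k := pow_le_pow_left₀ hx.le (le_sg hx.le) k
  have h2 : sg x ^ k ≤ sg x ^ m := pow_le_pow_right₀ (one_le_sg x) hk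
  exact one_div_le_one_div_of_le (by positivity) (h1.trans h2)

theorem q_bd {p : ℝ[X]} {C : ℝ} (_hC0 : 0 ≤ C) (hC : ∀ t ∈ Icc (0 : ℝ) 1,
    |p.eval t| ≤ C ∧ |p.derivative.eval t| ≤ C ∧ |p.derivative.derivative.eval t| ≤ C)
    {x : ℝ} (hx : 0 ≤ x) :
    |p.eval (x / sg x) - x / sg x * p.derivative.eval (x / sg x)| ≤ 2 * C := by
  obtain ⟨h0, h1, -⟩ := hC _ (tau_mem hx)
  have ht := tau_mem hx
  have h2 : |x / sg x * p.derivative.eval (x / sg x)| ≤ C := by
    rw [abs_mul, abs_of_nonneg ht.1]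
    calc x / sg x * |p.derivative.eval (x / sg x)| ≤ 1 * C :=
          mul_le_mul ht.2 h1 (abs_nonneg _) zero_le_one
      _ = C := one_mul C
  calc |p.eval (x / sg x) - x / sg x * p.derivative.eval (x / sg x)|
      ≤ |p.eval (x / sg x)| + |x / sg x * p.derivative.eval (x / sg x)| := abs_sub _ _
    _ ≤ 2 * C := by linarith

theorem g1_bd {p : ℝ[X]} {C : ℝ} (_hC0 : 0 ≤ C) (hC : ∀ t ∈ Icc (0 : ℝ) 1,
    |p.eval t| ≤ C ∧ |p.derivative.eval t| ≤ C ∧ |p.derivative.derivative.eval t| ≤ C)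
    {x : ℝ} (hx : 0 ≤ x) : |g1 p x| ≤ 2 * C := by
  obtain ⟨h0, h1, -⟩ := hC _ (tau_mem hx)
  have ht := tau_mem hx
  have h2 : |x / sg x * p.eval (x / sg x)| ≤ C := by
    rw [abs_mul, abs_of_nonneg ht.1]
    calc x / sg x * |p.eval (x / sg x)| ≤ 1 * C :=
          mul_le_mul ht.2 h0 (abs_nonneg _) zero_le_one
      _ = C := one_mul C
  have h3 : |p.derivative.eval (x / sg x) / sg x ^ 2| ≤ C := by
    rw [abs_div, abs_of_pos (pow_pos (sg_pos x) 2)]
    exact (div_le_self (abs_nonneg _) (one_le_pow₀ (one_le_sg x))).trans h1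
  unfold g1
  exact (abs_add_le _ _).trans (by linarith)

theorem tendsto_inv_pow (k : ℕ) (hk : k ≠ 0) (C : ℝ) :
    Tendsto (fun x : ℝ => C * (1 / x ^ k)) atTop (𝓝 0) := by
  have h1 : Tendsto (fun x : ℝ => x ^ k) atTop atTop := tendsto_pow_atTop hk
  have h2 : Tendsto (fun x : ℝ => (x ^ k)⁻¹) atTop (𝓝 0) := h1.inv_tendsto_atTop
  have h3 := h2.const_mul C
  simp only [mul_zero] at h3
  simpa [one_div] using h3

theorem eq_gam (m : ℕ) (p : ℝ[X]) (x : ℝ) :
    gam m p x = (m : ℝ) / 2 * (Uu m p x / x) + x * del m p x +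
      xi m x * ((p.eval (x / sg x) - x / sg x * p.derivative.eval (x / sg x)) / sg x) := by
  have hS := sg_pos x
  have hq := sg_sq x
  have h : gg p x - x * g1 p x =
      (p.eval (x / sg x) - x / sg x * p.derivative.eval (x / sg x)) / sg x := by
    unfold gg g1
    generalize p.eval (x / sg x) = P
    generalize p.derivative.eval (x / sg x) = Q
    field_simp
    linear_combination (P * sg x) * hq
  rw [← h]
  unfold gam del
  ring

theorem del_zero {m : ℕ} {p : ℝ[X]} (hm : 1 ≤ m) (hTh : Tendsto (Th m p) atTop (𝓝 0)) :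
    Tendsto (del m p) atTop (𝓝 0) := by
  obtain ⟨C, hC0, hC⟩ := exists_bd p
  have h1 : Tendsto (fun x => xi m x * g1 p x) atTop (𝓝 0) := by
    refine squeeze_zero_norm' ?_ (tendsto_inv_pow 1 one_ne_zero (((m : ℝ) + 2) * (2 * C)))
    filter_upwards [eventually_gt_atTop 0] with x hx
    rw [Real.norm_eq_abs, abs_mul, abs_of_nonneg (xi_bd m x).1]
    have h2 := (xi_bd m x).2
    have h3 := g1_bd hC0 hC hx.le
    have h4 := inv_pow_le (m := m) 1 hx hm
    have h5 : (0 : ℝ) ≤ (m : ℝ) + 2 := by positivity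
    calc xi m x * |g1 p x| ≤ (((m : ℝ) + 2) / sg x ^ m) * (2 * C) :=
          mul_le_mul h2 h3 (abs_nonneg _) (div_nonneg h5 (pow_pos (sg_pos x) m).le)
      _ = ((m : ℝ) + 2) * (2 * C) * (1 / sg x ^ m) := by ring
      _ ≤ ((m : ℝ) + 2) * (2 * C) * (1 / x ^ 1) :=
          mul_le_mul_of_nonneg_left h4 (by positivity)
  have h2 := h1.add (hTh.const_mul (((m : ℝ) + 2) * m / 2))
  simp only [mul_zero, add_zero] at h2
  exact h2

/-- a function with limit `0` at infinity and derivative `O(x^(-4))` is `O(x^(-3))` -/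
theorem decay {f f' : ℝ → ℝ} {K : ℝ} (hd : ∀ x, 0 < x → HasDerivAt f (f' x) x)
    (hb : ∀ x, 0 < x → |f' x| ≤ K * (1 / x ^ 4)) (hl : Tendsto f atTop (𝓝 0)) :
    ∀ x, 0 < x → |f x| ≤ K / 3 * (1 / x ^ 3) := by
  have hp : ∀ x : ℝ, 0 < x → HasDerivAt (fun y : ℝ => K / 3 * (1 / y ^ 3)) (-(K * (1 / x ^ 4))) x := by
    intro x hx
    have h1 := ((hasDerivAt_pow 3 x).inv (pow_pos hx 3).ne').const_mul (K / 3)
    have h2 : (fun y : ℝ => K / 3 * (1 / y ^ 3)) = fun y => K / 3 * ((fun y => y ^ 3)⁻¹) y := by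
      funext y
      simp [one_div]
    rw [h2]
    refine HasDerivAt.congr_deriv h1 ?_
    field_simp
    ring
  have hlp := tendsto_inv_pow 3 (by norm_num) (K / 3)
  have key : ∀ (g g' : ℝ → ℝ), (∀ x, 0 < x → HasDerivAt g (g' x) x) → (∀ x, 0 < x → 0 ≤ g' x) →
      Tendsto g atTop (𝓝 0) → ∀ x, 0 < x → g x ≤ 0 := by
    intro g g' hg hg' hgl x hx
    have hm : MonotoneOn g (Ioi 0) := by
      refine monotoneOn_of_deriv_nonneg (convex_Ioi 0)
        (fun y hy => (hg y hy).continuousAt.continuousWithinAt)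
        (fun y hy => ?_) (fun y hy => ?_)
      · rw [interior_Ioi] at hy
        exact (hg y hy).differentiableAt.differentiableWithinAt
      · rw [interior_Ioi] at hy
        rw [(hg y hy).deriv]
        exact hg' y hy
    refine ge_of_tendsto hgl ?_
    filter_upwards [eventually_ge_atTop x] with y hy
    exact hm hx (lt_of_lt_of_le hx hy) hy
  intro x hx
  rw [abs_le]
  constructor
  · have h1 := key (fun y => -f y - K / 3 * (1 / y ^ 3)) (fun y => -f' y - -(K * (1 / y ^ 4)))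
      (fun y hy => (hd y hy).neg.sub (hp y hy))
      (fun y hy => by linarith [(abs_le.mp (hb y hy)).2])
      (by simpa using hl.neg.sub hlp) x hx
    linarith
  · have h1 := key (fun y => f y - K / 3 * (1 / y ^ 3)) (fun y => f' y - -(K * (1 / y ^ 4)))
      (fun y hy => (hd y hy).sub (hp y hy))
      (fun y hy => by linarith [(abs_le.mp (hb y hy)).1])
      (by simpa using hl.sub hlp) x hx
    linarith

theorem xdel_zero {m : ℕ} {p : ℝ[X]} (hm : 1 ≤ m) (hGD : StGD)
    (hTh : Tendsto (Th m p) atTop (𝓝 0)) : Tendsto (fun x => x * del m p x) atTop (𝓝 0) := by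
  obtain ⟨C, hC0, hC⟩ := exists_bd p
  have hm0 : (0 : ℝ) ≤ m := Nat.cast_nonneg m
  have hd := fun x hx => (hGD m p x hx).2.2.2
  have hb : ∀ x, 0 < x → |xi m x * ((p.eval (x / sg x) - x / sg x * p.derivative.eval (x / sg x)) / sg x ^ 3 +
        p.derivative.derivative.eval (x / sg x) / sg x ^ 5) +
      ((m : ℝ) + 2) * m / 2 * (x ^ 2 * Aa m p x / sg x ^ 2)| ≤
      (((m : ℝ) + 2) * (3 * C) + ((m : ℝ) + 2) * m / 2 * (2 * C)) * (1 / x ^ 4) := by
    intro x hx
    have hS := sg_pos x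
    obtain ⟨-, -, hpp⟩ := hC _ (tau_mem hx.le)
    have hq := q_bd hC0 hC hx.le
    have hxi := xi_bd m x
    have e1 : 1 / sg x ^ (m + 3) ≤ 1 / x ^ 4 := inv_pow_le 4 hx (by omega)
    have a1 : |(p.eval (x / sg x) - x / sg x * p.derivative.eval (x / sg x)) / sg x ^ 3 +
        p.derivative.derivative.eval (x / sg x) / sg x ^ 5| ≤ 3 * C * (1 / sg x ^ 3) := by
      have b1 : |(p.eval (x / sg x) - x / sg x * p.derivative.eval (x / sg x)) / sg x ^ 3| ≤
          2 * C * (1 / sg x ^ 3) := by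
        rw [abs_div, abs_of_pos (pow_pos hS 3), div_eq_mul_one_div]
        exact mul_le_mul_of_nonneg_right hq (by positivity)
      have b2 : |p.derivative.derivative.eval (x / sg x) / sg x ^ 5| ≤ C * (1 / sg x ^ 3) := by
        rw [abs_div, abs_of_pos (pow_pos hS 5), div_eq_mul_one_div]
        refine mul_le_mul hpp ?_ (by positivity) hC0
        exact one_div_le_one_div_of_le (by positivity) (pow_le_pow_right₀ (one_le_sg x) (by norm_num))
      exact (abs_add_le _ _).trans (by linarith)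
    have a2 : |xi m x * ((p.eval (x / sg x) - x / sg x * p.derivative.eval (x / sg x)) / sg x ^ 3 +
        p.derivative.derivative.eval (x / sg x) / sg x ^ 5)| ≤
        ((m : ℝ) + 2) * (3 * C) * (1 / sg x ^ (m + 3)) := by
      rw [abs_mul, abs_of_nonneg hxi.1]
      calc xi m x * _ ≤ (((m : ℝ) + 2) / sg x ^ m) * (3 * C * (1 / sg x ^ 3)) :=
            mul_le_mul hxi.2 a1 (abs_nonneg _) (by positivity)
        _ = ((m : ℝ) + 2) * (3 * C) * (1 / sg x ^ (m + 3)) := by
            rw [pow_add]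
            field_simp
    have a3 : |Aa m p x| ≤ 2 * C * (1 / sg x ^ (m + 3)) := by
      unfold Aa
      rw [abs_div, abs_of_pos (pow_pos hS (m + 3)), div_eq_mul_one_div]
      exact mul_le_mul_of_nonneg_right hq (by positivity)
    have a4 : |x ^ 2 * Aa m p x / sg x ^ 2| ≤ 2 * C * (1 / sg x ^ (m + 3)) := by
      refine le_trans ?_ a3
      rw [abs_div, abs_mul, abs_of_pos (pow_pos hS 2), abs_of_pos (pow_pos hx 2)]
      rw [div_le_iff₀ (by positivity), mul_comm]
      refine mul_le_mul_of_nonneg_left ?_ (abs_nonneg _)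
      exact pow_le_pow_left₀ hx.le (le_sg hx.le) 2
    have a5 : |((m : ℝ) + 2) * m / 2 * (x ^ 2 * Aa m p x / sg x ^ 2)| ≤
        ((m : ℝ) + 2) * m / 2 * (2 * C) * (1 / sg x ^ (m + 3)) := by
      rw [abs_mul, abs_of_nonneg (by positivity : (0 : ℝ) ≤ ((m : ℝ) + 2) * m / 2), mul_assoc]
      exact mul_le_mul_of_nonneg_left a4 (by positivity)
    calc _ ≤ ((m : ℝ) + 2) * (3 * C) * (1 / sg x ^ (m + 3)) +
          ((m : ℝ) + 2) * m / 2 * (2 * C) * (1 / sg x ^ (m + 3)) :=
          (abs_add_le _ _).trans (add_le_add a2 a5)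
      _ = (((m : ℝ) + 2) * (3 * C) + ((m : ℝ) + 2) * m / 2 * (2 * C)) * (1 / sg x ^ (m + 3)) := by ring
      _ ≤ _ := mul_le_mul_of_nonneg_left e1 (by positivity)
  have hdec := decay hd hb (del_zero hm hTh)
  set K := (((m : ℝ) + 2) * (3 * C) + ((m : ℝ) + 2) * m / 2 * (2 * C)) with hK
  refine squeeze_zero_norm' ?_ (tendsto_inv_pow 2 (by norm_num) (K / 3))
  filter_upwards [eventually_gt_atTop 0] with x hx
  rw [Real.norm_eq_abs, abs_mul, abs_of_pos hx]
  calc x * |del m p x| ≤ x * (K / 3 * (1 / x ^ 3)) := mul_le_mul_of_nonneg_left (hdec x hx) hx.le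
    _ = K / 3 * (1 / x ^ 2) := by
        field_simp

theorem Ux_zero {m : ℕ} {p : ℝ[X]} {C : ℝ} (hU : ∀ x : ℝ, 0 < x → |Uu m p x| ≤ C) :
    Tendsto (fun x => Uu m p x / x) atTop (𝓝 0) := by
  refine squeeze_zero_norm' ?_ (tendsto_inv_pow 1 one_ne_zero C)
  filter_upwards [eventually_gt_atTop 0] with x hx
  rw [Real.norm_eq_abs, abs_div, abs_of_pos hx, div_eq_mul_one_div, pow_one]
  exact mul_le_mul_of_nonneg_right (hU x hx) (by positivity)

theorem ev_der_zero {p : ℝ[X]} (hE : ∀ x : ℝ, p.eval (-x) = p.eval x) : p.derivative.eval 0 = 0 := by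
  have h1 : HasDerivAt (fun x : ℝ => p.eval x) (p.derivative.eval 0) 0 := p.hasDerivAt 0
  have h1' : HasDerivAt (fun x : ℝ => p.eval x) (p.derivative.eval 0) (-0) := by simpa using h1
  have h2 : HasDerivAt (fun x : ℝ => p.eval (-x)) (-(p.derivative.eval 0)) 0 := by
    have h3 : HasDerivAt (fun x : ℝ => p.eval (-x)) (p.derivative.eval 0 * -1) 0 :=
      HasDerivAt.comp (h₂ := fun t : ℝ => p.eval t) (h := fun y : ℝ => -y) 0 h1'
      (hasDerivAt_neg 0)
    have e : p.derivative.eval 0 * -1 = -(p.derivative.eval 0) := by ring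
    rw [e] at h3
    exact h3
  have h3 : (fun x : ℝ => p.eval (-x)) = fun x => p.eval x := funext hE
  rw [h3] at h2
  have := h1.unique h2
  linarith

theorem hGL (hTU : StTU) (hGD : StGD) : StGL := by
  intro m p hm hE hN
  obtain ⟨hTh, ⟨C1, hU⟩, hThl⟩ := hTU m p hm hE hN
  have hm0 : (0 : ℝ) ≤ m := Nat.cast_nonneg m
  have hid : Tendsto (fun x : ℝ => x) (𝓝[>] 0) (𝓝 0) := tendsto_nhdsWithin_of_tendsto_nhds tendsto_id
  have hev : ∀ᶠ x : ℝ in 𝓝[>] 0, 0 < x := self_mem_nhdsWithin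
  refine ⟨?_, ?_, ?_, ?_⟩
  · have h1 : Tendsto (fun x => Uu m p x / x) (𝓝[>] 0) (𝓝 0) := by
      have h0 : Tendsto (fun x : ℝ => C1 * x ^ 2) (𝓝[>] 0) (𝓝 0) := by
        simpa using (hid.pow 2).const_mul C1
      refine squeeze_zero_norm' ?_ h0
      filter_upwards [hev] with x hx
      rw [Real.norm_eq_abs, abs_div, abs_of_pos hx, div_le_iff₀ hx]
      calc |Uu m p x| ≤ C1 * x ^ 3 := (hU x hx).2
        _ = C1 * x ^ 2 * x := by ring
    have h2 : Tendsto (fun x => xi m x * gg p x) (𝓝[>] 0) (𝓝 (p.eval 0)) := by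
      have h0 : Tendsto (fun x => xi m x * gg p x) (𝓝[>] 0) (𝓝 (xi m 0 * gg p 0)) :=
        (((xi_cont m).mul (gg_cont p)).tendsto 0).mono_left (nhdsWithin_le_nhds (s := Ioi (0 : ℝ)))
      have h3 : xi m 0 * gg p 0 = p.eval 0 := by
        unfold xi gg
        rw [sg_zero]
        simp
      rw [h3] at h0
      exact h0
    have h3 : Tendsto (fun x => x * Th m p x) (𝓝[>] 0) (𝓝 0) := by
      have h0 : Tendsto (fun x : ℝ => x * C1) (𝓝[>] 0) (𝓝 0) := by
        simpa using hid.mul_const C1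
      refine squeeze_zero_norm' ?_ h0
      filter_upwards [hev] with x hx
      rw [Real.norm_eq_abs, abs_mul, abs_of_pos hx, abs_of_nonneg (hTh x hx).1]
      exact mul_le_mul_of_nonneg_left ((hTh x hx).2.trans ((le_abs_self _).trans (hU x hx).1)) hx.le
    have h4 := ((h1.const_mul ((m : ℝ) / 2)).add h2).add (h3.const_mul (((m : ℝ) + 2) * m / 2))
    simp only [mul_zero, add_zero, zero_add] at h4
    exact h4
  · have h1 : Tendsto (fun x => x * Aa m p x) (𝓝[>] 0) (𝓝 0) := by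
      have h0 : Tendsto (fun x => x * Aa m p x) (𝓝[>] 0) (𝓝 (0 * Aa m p 0)) :=
        ((continuous_id.mul (Aa_cont m p)).tendsto 0).mono_left (nhdsWithin_le_nhds (s := Ioi (0 : ℝ)))
      rw [zero_mul] at h0
      exact h0
    have h2 : Tendsto (fun x => Uu m p x / x ^ 2) (𝓝[>] 0) (𝓝 0) := by
      have h0 : Tendsto (fun x : ℝ => C1 * x) (𝓝[>] 0) (𝓝 0) := by
        simpa using hid.const_mul C1
      refine squeeze_zero_norm' ?_ h0
      filter_upwards [hev] with x hx
      rw [Real.norm_eq_abs, abs_div, abs_of_pos (pow_pos hx 2), div_le_iff₀ (pow_pos hx 2)]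
      calc |Uu m p x| ≤ C1 * x ^ 3 := (hU x hx).2
        _ = C1 * x * x ^ 2 := by ring
    have h3 : Tendsto (fun x => xi m x * g1 p x) (𝓝[>] 0) (𝓝 0) := by
      have h0 : Tendsto (fun x => xi m x * g1 p x) (𝓝[>] 0) (𝓝 (xi m 0 * g1 p 0)) :=
        (((xi_cont m).mul (g1_cont p)).tendsto 0).mono_left (nhdsWithin_le_nhds (s := Ioi (0 : ℝ)))
      have h3 : xi m 0 * g1 p 0 = 0 := by
        unfold g1
        simp [ev_der_zero hE.1]
      rw [h3] at h0
      exact h0
    have h4 : Tendsto (Th m p) (𝓝[>] 0) (𝓝 0) := by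
      have h0 : Tendsto (fun x : ℝ => C1 * x ^ 3) (𝓝[>] 0) (𝓝 0) := by
        simpa using (hid.pow 3).const_mul C1
      refine squeeze_zero_norm' ?_ h0
      filter_upwards [hev] with x hx
      rw [Real.norm_eq_abs, abs_of_nonneg (hTh x hx).1]
      exact (hTh x hx).2.trans ((le_abs_self _).trans (hU x hx).2)
    have h5 := ((h1.sub h2).const_mul ((m : ℝ) / 2)).add
      (h3.add (h4.const_mul (((m : ℝ) + 2) * m / 2)))
    simp only [mul_zero, add_zero, sub_zero] at h5
    exact h5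
  · obtain ⟨C, hC0, hC⟩ := exists_bd p
    have h1 := Ux_zero (m := m) (p := p) (C := C1) (fun x hx => (hU x hx).1)
    have h2 := xdel_zero hm hGD hThl
    have h3 : Tendsto (fun x => xi m x *
        ((p.eval (x / sg x) - x / sg x * p.derivative.eval (x / sg x)) / sg x)) atTop (𝓝 0) := by
      refine squeeze_zero_norm' ?_ (tendsto_inv_pow 1 one_ne_zero (((m : ℝ) + 2) * (2 * C)))
      filter_upwards [eventually_gt_atTop 0] with x hx
      have hS := sg_pos x
      rw [Real.norm_eq_abs, abs_mul, abs_of_nonneg (xi_bd m x).1, abs_div, abs_of_pos hS]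
      have h4 : xi m x ≤ (m : ℝ) + 2 :=
        (xi_bd m x).2.trans (div_le_self (by positivity) (one_le_pow₀ (one_le_sg x)))
      have h5 := q_bd hC0 hC hx.le
      have h6 : 1 / sg x ≤ 1 / x ^ 1 := by
        rw [pow_one]
        exact one_div_le_one_div_of_le hx (le_sg hx.le)
      calc xi m x * (|p.eval (x / sg x) - x / sg x * p.derivative.eval (x / sg x)| / sg x)
          ≤ ((m : ℝ) + 2) * (2 * C / sg x) := by
            refine mul_le_mul h4 ?_ (by positivity) (by positivity)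
            exact div_le_div_of_nonneg_right h5 hS.le
        _ = ((m : ℝ) + 2) * (2 * C) * (1 / sg x) := by ring
        _ ≤ ((m : ℝ) + 2) * (2 * C) * (1 / x ^ 1) := mul_le_mul_of_nonneg_left h6 (by positivity)
    have h4 := ((h1.const_mul ((m : ℝ) / 2)).add h2).add h3
    simp only [mul_zero, add_zero] at h4
    refine h4.congr (fun x => ?_)
    rw [eq_gam]
  · obtain ⟨C, hC0, hC⟩ := exists_bd p
    have h1 := Ux_zero (m := m) (p := p) (C := C1) (fun x hx => (hU x hx).1)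
    have h2 := xdel_zero hm hGD hThl
    have h3 : Tendsto (fun x => x ^ 2 * Aa m p x) atTop (𝓝 0) := by
      refine squeeze_zero_norm' ?_ (tendsto_inv_pow 1 one_ne_zero (2 * C))
      filter_upwards [eventually_gt_atTop 0] with x hx
      have hS := sg_pos x
      have h4 := q_bd hC0 hC hx.le
      rw [Real.norm_eq_abs, abs_mul, abs_of_pos (pow_pos hx 2)]
      unfold Aa
      rw [abs_div, abs_of_pos (pow_pos hS (m + 3)), pow_one]
      have h5 : x ^ 2 * x ≤ sg x ^ (m + 3) := by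
        calc x ^ 2 * x = x ^ 3 := by ring
          _ ≤ sg x ^ 3 := pow_le_pow_left₀ hx.le (le_sg hx.le) 3
          _ ≤ sg x ^ (m + 3) := pow_le_pow_right₀ (one_le_sg x) (by omega)
      calc x ^ 2 * (|p.eval (x / sg x) - x / sg x * p.derivative.eval (x / sg x)| / sg x ^ (m + 3))
          = |p.eval (x / sg x) - x / sg x * p.derivative.eval (x / sg x)| * (x ^ 2 / sg x ^ (m + 3)) := by
            ring
        _ ≤ 2 * C * (1 / x) := by
            refine mul_le_mul h4 ?_ (by positivity) (by positivity)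
            rw [div_le_div_iff₀ (by positivity) hx, one_mul]
            exact h5
    have h4 := ((h3.sub h1).const_mul ((m : ℝ) / 2)).add h2
    simp only [mul_zero, add_zero, sub_zero] at h4
    refine h4.congr' ?_
    filter_upwards [eventually_gt_atTop 0] with x hx
    unfold dgam
    field_simp

end Pool.Agent.Helper62.MU.GL
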