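import Pool.Agent.Helper71.MU.M_PL

/-!
# Project MU, module SLI: the key functional in slices
-/

set_option autoImplicit false

open MeasureTheory Metric Set Filter Topology Polynomial
open scoped RealInnerProductSpace ContDiff

namespace Pool.Agent.Helper62.MU

open Pool.Agent.Helper62.Mink
open Pool.Agent.Helper62.Mink.Nec (consE norm_consE)

/-- the degree one extension of `Kst` -/
noncomputable def Kx (m : ℕ) (p : ℝ[X]) (h : E (m + 2) → ℝ) (w : E (m + 2)) : ℝ :=
  h w * ((p.eval (w 0 / ‖w‖) - w 0 / ‖w‖ * p.derivative.eval (w 0 / ‖w‖)) +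
    p.derivative.derivative.eval (w 0 / ‖w‖) * (w 1 / ‖w‖) ^ 2)

lemma SI_congr' {n : ℕ} {φ ψ : E n → ℝ} (h : ∀ w, ‖w‖ = 1 → φ w = ψ w) : SI φ = SI ψ := by
  unfold SI
  refine integral_congr_ae (Eventually.of_forall fun w => ?_)
  exact h _ (mem_sphere_zero_iff_norm.1 w.2)

lemma Kx_cont (m : ℕ) (p : ℝ[X]) {h : E (m + 2) → ℝ} (hh : Sublinear h) :
    ContinuousOn (Kx m p h) {0}ᶜ := by
  have hn : ∀ w ∈ ({0}ᶜ : Set (E (m + 2))), ‖w‖ ≠ 0 := fun w hw => norm_ne_zero_iff.2 hw
  have h0 : ContinuousOn (fun w : E (m + 2) => w 0 / ‖w‖) {0}ᶜ :=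
    ContinuousOn.div (by fun_prop) continuous_norm.continuousOn hn
  have h1 : ContinuousOn (fun w : E (m + 2) => w 1 / ‖w‖) {0}ᶜ :=
    ContinuousOn.div (by fun_prop) continuous_norm.continuousOn hn
  have hp : ∀ q : ℝ[X], ContinuousOn (fun w : E (m + 2) => q.eval (w 0 / ‖w‖)) {0}ᶜ :=
    fun q => q.continuous.comp_continuousOn h0
  exact hh.continuous.continuousOn.mul (((hp p).sub (h0.mul (hp _))).add ((hp _).mul (h1.pow 2)))

lemma Kx_hom (m : ℕ) (p : ℝ[X]) {h : E (m + 2) → ℝ} (hh : Sublinear h) (c : ℝ) (hc : 0 < c)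
    (w : E (m + 2)) : Kx m p h (c • w) = c * Kx m p h w := by
  have e : ∀ i, (c • w) i / ‖c • w‖ = w i / ‖w‖ := by
    intro i
    rw [norm_smul, Real.norm_eq_abs, abs_of_pos hc]
    simp only [PiLp.smul_apply, smul_eq_mul]
    rw [mul_div_mul_left _ _ hc.ne']
  unfold Kx
  rw [e 0, e 1, hh.pos_hom c hc.le]
  ring

lemma SI_lin {n : ℕ} {φ : E n → ℝ} {g1 g2 : E n → ℝ} (a b : ℝ)
    (h1 : ContinuousOn g1 (sphere 0 1)) (h2 : ContinuousOn g2 (sphere 0 1))
    (h : ∀ w, ‖w‖ = 1 → φ w = a * g1 w + b * g2 w) : SI φ = a * SI g1 + b * SI g2 := by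
  rw [SI_congr' h]
  unfold SI
  rw [integral_add ((sphere_integrable h1).const_mul a) ((sphere_integrable h2).const_mul b),
    integral_const_mul, integral_const_mul]

theorem hSLI (hPL : StPL) : StSLI := by
  intro m p h hh
  obtain ⟨h1, h2⟩ := hPL m (Kx m p h) (Kx_cont m p hh) (Kx_hom m p hh)
  have key : ∀ x : ℝ, SI (fun z : E (m + 1) => Kx m p h (consE x z)) / sg x ^ (m + 3) =
      Aa m p x * av h x + Bb m p x * bv h x := by
    intro x
    have hs : sg x ≠ 0 := (Pool.Agent.Helper71.MU.sg_pos x).ne'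
    have hcx : Continuous (fun z : E (m + 1) => consE x z) :=
      Pool.Agent.Helper71.MU.consE_cont.comp (Continuous.prodMk_right x)
    have hc : Continuous (fun z : E (m + 1) => h (consE x z)) := hh.continuous.comp hcx
    have hc2 : Continuous (fun z : E (m + 1) => z 0 ^ 2 * h (consE x z)) :=
      (Continuous.pow (by fun_prop) 2).mul hc
    have e : SI (fun z : E (m + 1) => Kx m p h (consE x z)) =
        (p.eval (x / sg x) - x / sg x * p.derivative.eval (x / sg x)) * av h x +
          (p.derivative.derivative.eval (x / sg x) / sg x ^ 2) * bv h x := by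
      refine SI_lin _ _ hc.continuousOn hc2.continuousOn fun z hz => ?_
      unfold Kx
      rw [Pool.Agent.Helper71.MU.norm_consE_unit x hz, Nec.consE_zero, Nec.consE_one]
      field_simp
    rw [e]
    unfold Aa Bb
    field_simp
    ring
  refine ⟨h1.congr (Eventually.of_forall fun x => key x), ?_⟩
  have e2 : SI (Kst m p h) = SI (Kx m p h) := by
    refine SI_congr' fun w hw => ?_
    unfold Kst Kx
    rw [hw]
    simp only [div_one]
  rw [e2, h2]
  exact integral_congr_ae (Eventually.of_forall fun x => key x)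

end Pool.Agent.Helper62.MU
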