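import Pool.Agent.Helper62.MU.Asm
import Pool.Agent.Helper71.MU.M_PL
import Pool.Agent.Helper62.MU.M_SLI
import Pool.Agent.Helper39.MU.M_SYM
import Pool.Agent.Helper6.MU.M_ROT
import Pool.Agent.Helper92.MU.M_ID
import Pool.Agent.Helper16.MU.M_AB
import Pool.Agent.Helper17.MU.M_QN
import Pool.Agent.Helper72.MU.M_PSI
import Pool.Agent.Helper15.MU.M_TU
import Pool.Agent.Helper28.MU.M_GP
import Pool.Agent.Helper40.MU.M_GD
import Pool.Agent.Helper62.MU.M_GL
import Pool.Agent.Helper67.MU.M_OD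
import Pool.Agent.Helper2.MU.M_SEG
import Pool.Agent.Helper84.MU.M_APX

/-!
# Project MU: all modules together
-/

set_option autoImplicit false

namespace Pool.Agent.Helper62.MU

theorem allSt : AllSt where
  PL := Pool.Agent.Helper71.MU.hPL
  SLI := hSLI Pool.Agent.Helper71.MU.hPL
  SYM := Pool.Agent.Helper39.MU.hSYM
  ROT := Pool.Agent.Helper6.MU.hROT
  ID := Pool.Agent.Helper92.MU.hID
  AB := Pool.Agent.Helper16.MU.hAB
  QN := Pool.Agent.Helper17.MU.hQN Pool.Agent.Helper92.MU.hID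
  OD := Pool.Agent.Helper67.MU.hOD Pool.Agent.Helper15.MU.hTU
    (Pool.Agent.Helper28.MU.hGP Pool.Agent.Helper72.MU.hPSI Pool.Agent.Helper15.MU.hTU)
    Pool.Agent.Helper40.MU.hGD (Pool.Agent.Helper62.MU.GL.hGL Pool.Agent.Helper15.MU.hTU Pool.Agent.Helper40.MU.hGD)
  SEG := Pool.Agent.Helper2.MU.hSEG
  APX := Pool.Agent.Helper84.MU.hAPX

end Pool.Agent.Helper62.MU
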