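import Pool.Agent.Helper62.MU.Asm2
import Pool.Agent.Helper40.MU.M_ZA
import Pool.Agent.Helper23.MU.M_ZB
import Pool.Agent.Helper47.MU.M_ZC
import Pool.Agent.Helper41.MU.M_ZD
import Pool.Agent.Helper39.MU.M_ZF
import Pool.Agent.Helper82.MU.M_ZG
import Pool.Agent.Helper6.MU.M_MO
import Pool.Agent.Helper82.MU.M_SX
import Pool.Agent.Helper78.MU.M_ZO
import Pool.Agent.Helper91.MU.M_NU

/-!
# Project MU part 2: all modules together
-/

set_option autoImplicit false

namespace Pool.Agent.Helper62.MU2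

theorem allSt : AllSt where
  ZD := Pool.Agent.Helper41.MU.hZD (Pool.Agent.Helper47.MU.hZC Pool.Agent.Helper40.MU.hZA
    Pool.Agent.Helper23.MU.hZB)
  ZF := Pool.Agent.Helper39.MU.hZF
  ZG := Pool.Agent.Helper82.MU.hZG
  ZO := Pool.Agent.Helper78.MU.hZO (Pool.Agent.Helper82.MU.hSX Pool.Agent.Helper40.MU.hZA
    Pool.Agent.Helper6.MU.hMO)
  NU := Pool.Agent.Helper91.MU.hNU

end Pool.Agent.Helper62.MU2
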