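import Pool.Agent.Helper62.Mink.Final3

/-!
# Project MU (MP_ae3a4d_gt): concave plus even unimodal densities

THEOREM of the project (third hand-in, `MP_ae3a4d_gt.ConcavePlusUnimodal`).  Let `n ≥ 3`, `g` continuous and concave on `[-1,1]`,
`k` continuous and nonincreasing on `[0,1]`, `f(t) = g(t) + k(|t|)`.  Then the zonal density `f` generates an admissible map if and only
if `∫_0^π f(cos x) cos^2 x sin^(n-3) x dx ≥ 0`.

Notation.  `n = m + 2`, `N = n - 1 = m + 1`.  A point of `E (m+2)` is `consE x z` with `x` real and `z` in `E (m+1)`; pole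
`po = e_0`, second vector `e_1`.  `σ = sg x = √(1+x²)`, `τ = x/σ`.  For `h` sublinear on `E (m+2)`
`a(x) = av h x = ∫ h(x,z) dz`, `b(x) = bv h x = ∫ z_0² h(x,z) dz` (`z` in the unit sphere of `E (m+1)`, surface measure `SI`).
All of this is elementary analysis.  Known lemmas (already landed, all are imported here): `Mink.integral_polar`,
`Mink.sphere_integral_comp`, `Mink.sphere_integrable`, `Mink.euler`, `Mink.D2_nonneg`, `Mink.cda` .. `cda2`,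
`Mink.Sublinear.exists_bound`, `Mink.Sublinear.exists_lipschitz`, `Mink.hasDerivAt_param` (derivative of an integral over the sphere),
`Mink.Nec.integral_consE`, `Mink.Nec.norm_consE`, `Mink.Nec.wt` with `wt_cont`, `wt_zero`, `wt_integral_pos`,
`Mink.seg_mono`, `seg_add`, `seg_const_mul`, `seg_one_pos`, `seg_intervalIntegrable`.
-/

set_option autoImplicit false

open MeasureTheory Metric Set Filter Topology Polynomial
open scoped RealInnerProductSpace ContDiff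

namespace Pool.Agent.Helper62.MU

open Pool.Agent.Helper62.Mink
open Pool.Agent.Helper62.Mink.Nec (consE)

/-! ## Definitions -/

/-- `σ = √(1+x²)` -/
noncomputable def sg (x : ℝ) : ℝ := √(1 + x ^ 2)

/-- the pole -/
noncomputable def po (m : ℕ) : E (m + 2) := EuclideanSpace.single 0 1

/-- the second basis vector -/
noncomputable def ve (m : ℕ) : E (m + 2) := EuclideanSpace.single 1 1

/-- `a(x) = ∫ h(x,z) dz` -/
noncomputable def av {m : ℕ} (h : E (m + 2) → ℝ) (x : ℝ) : ℝ :=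
  SI (fun z : E (m + 1) => h (consE x z))

/-- `b(x) = ∫ z_0² h(x,z) dz` -/
noncomputable def bv {m : ℕ} (h : E (m + 2) → ℝ) (x : ℝ) : ℝ :=
  SI (fun z : E (m + 1) => z 0 ^ 2 * h (consE x z))

/-- `a'` -/
noncomputable def av1 {m : ℕ} (h : E (m + 2) → ℝ) (x : ℝ) : ℝ :=
  SI (fun z : E (m + 1) => fderiv ℝ h (consE x z) (po m))

/-- `b'` -/
noncomputable def bv1 {m : ℕ} (h : E (m + 2) → ℝ) (x : ℝ) : ℝ :=
  SI (fun z : E (m + 1) => z 0 ^ 2 * fderiv ℝ h (consE x z) (po m))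

/-- `b''` -/
noncomputable def bv2 {m : ℕ} (h : E (m + 2) → ℝ) (x : ℝ) : ℝ :=
  SI (fun z : E (m + 1) => z 0 ^ 2 * D2 h (po m) (consE x z))

/-- `A = σ^(-n-1) (p(τ) - τ p'(τ))` -/
noncomputable def Aa (m : ℕ) (p : ℝ[X]) (x : ℝ) : ℝ :=
  (p.eval (x / sg x) - x / sg x * p.derivative.eval (x / sg x)) / sg x ^ (m + 3)

/-- `B = σ^(-n-3) p''(τ)` -/
noncomputable def Bb (m : ℕ) (p : ℝ[X]) (x : ℝ) : ℝ :=
  p.derivative.derivative.eval (x / sg x) / sg x ^ (m + 5)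

/-- `Θ(x) = ∫_0^x y² σ^(-n-1) p(τ) dy` -/
noncomputable def Th (m : ℕ) (p : ℝ[X]) (x : ℝ) : ℝ :=
  ∫ y in (0 : ℝ)..x, y ^ 2 * p.eval (y / sg y) / sg y ^ (m + 3)

/-- `U(x) = ∫_0^x y² A(y) dy` -/
noncomputable def Uu (m : ℕ) (p : ℝ[X]) (x : ℝ) : ℝ := ∫ y in (0 : ℝ)..x, y ^ 2 * Aa m p y

/-- `ξ = σ^(-n) (1 + (n/2) x²)` -/
noncomputable def xi (m : ℕ) (x : ℝ) : ℝ := (1 + ((m : ℝ) + 2) / 2 * x ^ 2) / sg x ^ (m + 2)

/-- `g = σ p(τ)` -/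
noncomputable def gg (p : ℝ[X]) (x : ℝ) : ℝ := sg x * p.eval (x / sg x)

/-- `g' = τ p(τ) + σ^(-2) p'(τ)` -/
noncomputable def g1 (p : ℝ[X]) (x : ℝ) : ℝ :=
  x / sg x * p.eval (x / sg x) + p.derivative.eval (x / sg x) / sg x ^ 2

/-- `δ = ξ g' + c Θ`, `c = n (n-2)/2` -/
noncomputable def del (m : ℕ) (p : ℝ[X]) (x : ℝ) : ℝ :=
  xi m x * g1 p x + ((m : ℝ) + 2) * m / 2 * Th m p x

/-- `γ = ((n-2)/2) U/x + ξ g + c x Θ` -/
noncomputable def gam (m : ℕ) (p : ℝ[X]) (x : ℝ) : ℝ :=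
  (m : ℝ) / 2 * (Uu m p x / x) + xi m x * gg p x + ((m : ℝ) + 2) * m / 2 * (x * Th m p x)

/-- `γ' = ((n-2)/2) (x A - U/x²) + δ` -/
noncomputable def dgam (m : ℕ) (p : ℝ[X]) (x : ℝ) : ℝ :=
  (m : ℝ) / 2 * (x * Aa m p x - Uu m p x / x ^ 2) + del m p x

/-- `p` is even and nonincreasing on `[0,1]` -/
def EvA (p : ℝ[X]) : Prop :=
  (∀ x : ℝ, p.eval (-x) = p.eval x) ∧ ∀ x ∈ Icc (0 : ℝ) 1, p.derivative.eval x ≤ 0

/-- the normalisation `∫_0^∞ y² σ^(-n-1) p(τ) dy = 0` -/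
def Nrm (m : ℕ) (p : ℝ[X]) : Prop :=
  ∫ y in Ioi (0 : ℝ), y ^ 2 * p.eval (y / sg y) / sg y ^ (m + 3) = 0

/-- symmetrisation in the direction of the pole -/
noncomputable def sy {m : ℕ} (h : E (m + 2) → ℝ) (w : E (m + 2)) : ℝ :=
  h w + h (w - (2 * w 0) • po m)

/-- `h` is even in the direction of the pole -/
def EvH {m : ℕ} (h : E (m + 2) → ℝ) : Prop :=
  ∀ (x : ℝ) (z : E (m + 1)), h (consE (-x) z) = h (consE x z)

/-- the integrand of the key inequality in the standard position -/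
noncomputable def Kst (m : ℕ) (p : ℝ[X]) (h : E (m + 2) → ℝ) (w : E (m + 2)) : ℝ :=
  h w * ((p.eval (w 0) - w 0 * p.derivative.eval (w 0)) + p.derivative.derivative.eval (w 0) * w 1 ^ 2)

/-! ## Slicing -/

/-- PL (180 lines).  Slicing of sphere integrals of functions of degree one.
PROOF.  `|F w| ≤ C ‖w‖` (continuous on the compact unit sphere, homogeneity, `F 0 = 0`); `F` is measurable (continuous off `0`).  With the
weight `wt r = max 0 (1-r)`, `J = ∫_0^∞ r^(m+2) wt r dr > 0` (`wt_integral_pos`): `integral_polar` (`k = 1`) gives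
`∫ F(w) wt ‖w‖ dw = SI F * J`.  By `integral_consE` the left side is `∫_(y,z) F(consE y z) wt √(y²+‖z‖²)` over `ℝ × E (m+1)` (integrable: bounded
by `C` and supported in a bounded set).  Fubini, `∫_z ∫_y`; for `z ≠ 0` substitute `y = ‖z‖ x`: the inner integral is
`‖z‖² ∫_x F(consE x (‖z‖⁻¹ z)) wt (‖z‖ σ(x)) dx`.  Fubini again (`|..| ≤ C ‖z‖² σ(x) wt (‖z‖ σ(x))`, a product integrable function: for fixed `x`
the `z`-integral is `c σ^(-m-2)`), and for fixed `x` `integral_polar` (in `E (m+1)`, `k = 2`, `φ z = ‖z‖² F(consE x (‖z‖⁻¹ z))`) gives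
`SI (F(consE x ·)) ∫_0^∞ r^(m+2) wt (r σ) dr = SI (F(consE x ·)) J σ^(-m-3)`.  Cancel `J`.  Integrability in `x`: `|SI ..| ≤ C σ`, continuous.
Hypotheses: . -/
def StPL : Prop :=
  ∀ (m : ℕ) (F : E (m + 2) → ℝ), ContinuousOn F {0}ᶜ → (∀ c : ℝ, 0 < c → ∀ w, F (c • w) = c * F w) →
    Integrable (fun x : ℝ => SI (fun z : E (m + 1) => F (consE x z)) / sg x ^ (m + 3)) ∧
      SI F = ∫ x : ℝ, SI (fun z : E (m + 1) => F (consE x z)) / sg x ^ (m + 3)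

/-- SLI (70 lines).  The key functional in slices.
PROOF.  StPL for `F w = h w * ((p(t) - t p'(t)) + p''(t) s²)`, `t = w 0/‖w‖`, `s = w 1/‖w‖`: continuous off `0`, degree one, equal to `Kst`
on the unit sphere.  `‖consE x z‖ = σ(x)` for `‖z‖ = 1`, `(consE x z) 0 = x`, `(consE x z) 1 = z 0`.  Hypotheses: StPL. -/
def StSLI : Prop :=
  ∀ (m : ℕ) (p : ℝ[X]) (h : E (m + 2) → ℝ), Sublinear h →
    Integrable (fun x : ℝ => Aa m p x * av h x + Bb m p x * bv h x) ∧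
      SI (Kst m p h) = ∫ x : ℝ, (Aa m p x * av h x + Bb m p x * bv h x)

/-- SYM (90 lines).  Symmetrisation.
PROOF.  `w ↦ w - 2 w_0 e_0` is a linear isometry which maps `consE x z` to `consE (-x) z`.  So `sy h` is sublinear, smooth off `0`, even.
`av (sy h) x = av h x + av h (-x)`, same for `bv`.  `Aa`, `Bb` are even in `x` because `p` is even (`p'` odd, `p''` even: differentiate
`p.eval (-x) = p.eval x`, or `p.comp (-X) = p` by `Polynomial.funext`).  So `∫_ℝ = ∫_(0,∞) (f(x) + f(-x)) dx`.  Hypotheses: . -/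
def StSYM : Prop :=
  ∀ (m : ℕ) (p : ℝ[X]) (h : E (m + 2) → ℝ), (∀ x : ℝ, p.eval (-x) = p.eval x) → Sublinear h →
    ContDiffOn ℝ ∞ h {0}ᶜ → Integrable (fun x : ℝ => Aa m p x * av h x + Bb m p x * bv h x) →
    Sublinear (sy h) ∧ ContDiffOn ℝ ∞ (sy h) {0}ᶜ ∧ EvH (sy h) ∧
      ∫ x : ℝ, (Aa m p x * av h x + Bb m p x * bv h x) =
        ∫ x in Ioi (0 : ℝ), (Aa m p x * av (sy h) x + Bb m p x * bv (sy h) x)

/-- ROT (90 lines).  Rotation to the standard position.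
PROOF.  There is a linear isometry `R` of `E (m+2)` with `R u = e_0`, `R v = e_1` (extend `u, v` to an orthonormal basis indexed by
`Fin (m+2)`, `Orthonormal.exists_orthonormalBasis_extension_of_card_eq`, and compare with the standard basis).  `h' = h ∘ R⁻¹` is
sublinear and smooth off `0`; `sphere_integral_comp` (`w ↦ R w`): `⟨u,w⟩ = (R w) 0`, `⟨v,w⟩ = (R w) 1`.  Hypotheses: . -/
def StROT : Prop :=
  ∀ (m : ℕ) (p : ℝ[X]), (∀ h : E (m + 2) → ℝ, Sublinear h → ContDiffOn ℝ ∞ h {0}ᶜ → 0 ≤ SI (Kst m p h)) →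
    ∀ h : E (m + 2) → ℝ, Sublinear h → ContDiffOn ℝ ∞ h {0}ᶜ →
    ∀ u v : E (m + 2), ‖u‖ = 1 → ‖v‖ = 1 → (inner ℝ u v : ℝ) = 0 →
      0 ≤ ∫ w : sphere (0 : E (m + 2)) 1, h w *
        ((p.eval (inner ℝ u (w : E (m + 2))) -
            inner ℝ u (w : E (m + 2)) * p.derivative.eval (inner ℝ u (w : E (m + 2))))
          + p.derivative.derivative.eval (inner ℝ u (w : E (m + 2))) * (inner ℝ v (w : E (m + 2))) ^ 2)
        ∂(volume : Measure (E (m + 2))).toSphere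

/-! ## The functions `a` and `b` -/

/-- ID (170 lines).  An identity on the sphere of `E (m+1)`, `N = m+1`.
PROOF.  (1) For `ψ` of class `C¹` off `0` and `j ≠ 0`, `J z = z_0 e_j - z_j e_0`: `SI (z ↦ dψ(z)(J z)) = 0`.  Either derivative at `s = 0` of
`SI (ψ ∘ R_s) = SI ψ` (`R_s` the rotation in the plane `e_0, e_j`, `sphere_integral_comp`), or by parts in space: for `G(z) = ψ(z/‖z‖) w(‖z‖²)`
(`w` a bump supported away from `0`) `∫ dG(z)(e_j) z_0 = 0 = ∫ dG(z)(e_0) z_j` (`integral_mul_fderiv_eq_neg_fderiv_mul_of_integrable`, `∂_j z_0 = 0`),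
so `∫ dG(z)(J z) = 0`, `dG(z)(J z) = w(‖z‖²) dψ̃(z)(J z)` as `J z ⊥ z`, `dψ̃(z)(Jz)` has degree `0`, `integral_polar`; on the sphere
`dψ̃(z)(J z) = dψ(z)(J z)` as `J z` is tangential.  (2) Take `ψ(z) = z_0 z_j φ(z)`: `dψ(z)(J z) = -z_j² φ + z_0² φ + z_0 z_j (z_0 dφ(e_j) - z_j dφ(e_0))`.
Sum over `j = 1..m` (on the sphere `Σ z_j² = 1 - z_0²`, `Σ z_j dφ(e_j) = dφ(z)(z) - z_0 dφ(e_0)`):
`-(1 - z_0²) φ + m z_0² φ + z_0² dφ(z) - z_0³ dφ(e_0) - z_0 (1 - z_0²) dφ(e_0) = -(1 - (m+1) z_0²) φ + z_0² dφ(z) - z_0 dφ(e_0)`.  Hypotheses: . -/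
def StID : Prop :=
  ∀ (m : ℕ) (φ : E (m + 1) → ℝ), ContDiffOn ℝ 1 φ {0}ᶜ →
    SI (fun z : E (m + 1) => (1 - ((m : ℝ) + 1) * z 0 ^ 2) * φ z - z 0 ^ 2 * fderiv ℝ φ z z
      + z 0 * fderiv ℝ φ z (EuclideanSpace.single 0 1)) = 0

/-- AB (130 lines).  Regularity and growth of `a`, `b`.
PROOF.  `consE x z ≠ 0` for `‖z‖ = 1`, `consE (x + y) z = consE x z + y • po`.  `hasDerivAt_param` (the integrands and their `x`-derivatives are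
jointly continuous in `(x,z)`, `h` smooth off `0`).  `bv2 ≥ 0`: `D2_nonneg`.  `bv1 h 0 = 0`: `bv h` is even.  Growth: `|h w| ≤ C ‖w‖`,
`‖consE x z‖ = σ(x) ≤ 1 + |x|`, `|fderiv h w po| ≤ C` (`h` is Lipschitz), `z_0² ≤ 1`, total mass of the sphere.  Hypotheses: . -/
def StAB : Prop :=
  ∀ (m : ℕ) (h : E (m + 2) → ℝ), Sublinear h → ContDiffOn ℝ ∞ h {0}ᶜ → EvH h →
    (∀ x, HasDerivAt (av h) (av1 h x) x) ∧ (∀ x, HasDerivAt (bv h) (bv1 h x) x) ∧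
    (∀ x, HasDerivAt (bv1 h) (bv2 h x) x) ∧ Continuous (av1 h) ∧ Continuous (bv2 h) ∧
    (∀ x, 0 ≤ bv2 h x) ∧ bv1 h 0 = 0 ∧
    ∃ C : ℝ, ∀ x, |av h x| ≤ C * (1 + |x|) ∧ |bv h x| ≤ C * (1 + |x|) ∧ |av1 h x| ≤ C ∧ |bv1 h x| ≤ C

/-- QN (110 lines).  The reflection inequality.
PROOF.  Fix `x > 0`, `φ(z) = h(consE x z)`, smooth and convex on `E (m+1)`.  Euler (`Mink.euler` at `consE x z = x • po + consE 0 z`):
`x dh(po) = φ(z) - dφ(z)(z)`, so `x a' = a - ∫ dφ(z)(z)`, `x b' = b - ∫ z_0² dφ(z)(z)`, and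
`2(a-b) - x(a'-b') - m b = a - (m+1) b + ∫ (1-z_0²) dφ(z)(z) = ∫ (1-(m+1)z_0²) φ + ∫ (1-z_0²) dφ(z)(z) = ∫ dφ(z)(z - z_0 e_0)` by StID.
The reflection `z ↦ z* = 2 z_0 e_0 - z` preserves the measure: this is `½ ∫ (dφ(z) - dφ(z*))(z - z_0 e_0) ≥ 0` because the gradient of a convex
function is monotone and `z - z* = 2 (z - z_0 e_0)` (directly for `h`: `Mink.grad_le` and `Mink.euler` give
`(dh(w) - dh(w*))(w - w*) = h(w) - dh(w)(w*) - dh(w*)(w) + h(w*) ≥ 0` for `w = consE x z`, `w* = consE x z*`).  Hypotheses: StID. -/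
def StQN : Prop :=
  ∀ (m : ℕ) (h : E (m + 2) → ℝ), Sublinear h → ContDiffOn ℝ ∞ h {0}ᶜ → ∀ x : ℝ, 0 < x →
    0 ≤ 2 * (av h x - bv h x) - x * (av1 h x - bv1 h x) - m * bv h x

/-! ## One real variable -/

/-- PSI (80 lines).
PROOF.  `ψ(x) = σ^(-m-1) x (2+nx²)/(m(1+nx²))`, `n = m+2`.  `-x² σ^(-m-3) - ψ'(x) = -2 σ^(-m-1)/(m (1+nx²)²)`: `ψ' = ` (use `σ' = x/σ`)
`σ^(-m-3)/(m (1+nx²)²) [ -(m+1) x² (2+nx²)(1+nx²) + (1+x²)((2+3nx²)(1+nx²) - 2nx²(2+nx²)) ]`, polynomial identity.  So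
`I(x) - ψ(x)`, `I(x) = ∫_x^∞ y² σ^(-m-3) dy`, is nonincreasing and tends to `0` at infinity (`m ≥ 1`), hence `≥ 0`.  Hypotheses: . -/
def StPSI : Prop :=
  ∀ (m : ℕ) (x : ℝ), 1 ≤ m → 0 < x →
    x * (2 + ((m : ℝ) + 2) * x ^ 2) / (m * (1 + ((m : ℝ) + 2) * x ^ 2) * sg x ^ (m + 1)) ≤
      ∫ y in Ioi x, y ^ 2 / sg y ^ (m + 3)

/-- TU (100 lines).
PROOF.  `τ(y) = y/σ` is increasing from `0` to `1` on `[0,∞)`.  `Θ ≥ 0`: if `p(τ(x)) ≥ 0` then `p(τ(y)) ≥ 0` for `y ≤ x`; if `p(τ(x)) < 0` then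
`p(τ(y)) ≤ 0` for `y ≥ x` and `Θ(x) = -∫_x^∞` by `Nrm`.  `U - Θ = ∫_0^x y² σ^(-m-3) (-τ p'(τ)) ≥ 0`.  Bounds: `|p(τ) - τ p'(τ)| ≤ C` on `[0,1]`,
`|U(x)| ≤ C ∫_0^x y² σ^(-m-3)`, which is at most `C x³` and at most `C ∫_0^∞ σ^(-2)`.  `Θ(x) → 0` by `Nrm`.  Hypotheses: . -/
def StTU : Prop :=
  ∀ (m : ℕ) (p : ℝ[X]), 1 ≤ m → EvA p → Nrm m p →
    (∀ x : ℝ, 0 < x → 0 ≤ Th m p x ∧ Th m p x ≤ Uu m p x) ∧
    (∃ C : ℝ, ∀ x : ℝ, 0 < x → |Uu m p x| ≤ C ∧ |Uu m p x| ≤ C * x ^ 3) ∧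
    Tendsto (Th m p) atTop (𝓝 0)

/-- GP (80 lines).  `γ ≥ 0`.
PROOF.  If `p(τ) ≥ 0` all three terms are `≥ 0` (StTU).  If `p(τ) = -q < 0`: for `y ≥ x` `p(τ(y)) ≤ -q`, so
`Θ(x) = -∫_x^∞ y² σ^(-m-3) p(τ(y)) dy ≥ q I(x)`, `U ≥ Θ`, and
`γ ≥ q ( I(x) (m/(2x) + (m+2) m x/2) - ξ σ ) = q ( I(x) m (1+nx²)/(2x) - σ^(-m-1) (1+(n/2)x²) ) ≥ 0` by StPSI.
Hypotheses: StPSI StTU. -/
def StGP : Prop :=
  ∀ (m : ℕ) (p : ℝ[X]), 1 ≤ m → EvA p → Nrm m p → ∀ x : ℝ, 0 < x → 0 ≤ gam m p x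

/-- GD (110 lines).  Derivatives.
PROOF.  `σ' = x/σ`, `τ' = σ^(-3)`, `Θ' = x² σ^(-m-3) p(τ)`, `U' = x² A`.  `g' = g1`, `ξ' = -c x³ σ^(-n-2)`, `c = n(n-2)/2`, `n = m+2`.
`γ' = (m/2)(U'/x - U/x²) + ξ' g + ξ g' + cΘ + c x Θ'` and `ξ' g + c x Θ' = 0`.  With `q = p - τ p'`: `g'' = σ^(-3) q + σ^(-5) p''`,
`δ' = ξ' g' + ξ g'' + c Θ' = ξ g'' + c x² σ^(-n-3) q` (`g - x g' = q/σ`), `A' = -(n+1) x σ^(-n-3) q - τ σ^(-n-4) p''`,
`(x A - U/x²)' = A + x A' - A + 2U/x³`, and `(m/2) x A' + δ' = A + B` (coefficient of `q`: `σ^(-n-3)(-(n-2)(n+1)x²/2 + 1 + (n/2)x² + n(n-2)x²/2) = σ^(-n-1)`;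
of `p''`: `σ^(-n-5)(-(n-2)x²/2 + 1 + (n/2)x²) = σ^(-n-3)`).  Hypotheses: . -/
def StGD : Prop :=
  ∀ (m : ℕ) (p : ℝ[X]) (x : ℝ), 0 < x →
    HasDerivAt (gam m p) (dgam m p x) x ∧
    HasDerivAt (dgam m p) (Aa m p x + Bb m p x + m * Uu m p x / x ^ 3) x ∧
    HasDerivAt (Uu m p) (x ^ 2 * Aa m p x) x ∧
    HasDerivAt (del m p) (xi m x * ((p.eval (x / sg x) - x / sg x * p.derivative.eval (x / sg x)) / sg x ^ 3 +
        p.derivative.derivative.eval (x / sg x) / sg x ^ 5) +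
      ((m : ℝ) + 2) * m / 2 * (x ^ 2 * Aa m p x / sg x ^ 2)) x

/-- GL (130 lines).  Limits of `γ` and `γ'`.
PROOF.  At `0`: `|U| ≤ C x³`, `Θ = O(x³)`, `ξ(0) = 1`, `gg p 0 = p(0)`, `g1 p 0 = p'(0) = 0` (`p` even), continuity.  At infinity: `σ ≥ x`,
`ξ ≤ C σ^(-m)`, `|gg| ≤ C σ`, `|g1| ≤ C`; `γ - (m/2) U/x = x δ + ξ (gg - x g1)`, `gg - x g1 = (p(τ) - τ p'(τ))/σ`.  `δ → 0` (`ξ g1 → 0`,
`Θ → 0`), and `|δ'| ≤ C σ^(-m-3) ≤ C σ^(-4) ≤ C x^(-4)` by StGD, so `|δ(x)| ≤ C x^(-3)` (mean value inequality on `[x,R]`, `R → ∞`), so `x δ → 0`.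
`x γ' = (m/2)(x² A - U/x) + x δ → 0` as `|x² A| ≤ C σ^(-m-1)`.  Hypotheses: StTU StGD. -/
def StGL : Prop :=
  ∀ (m : ℕ) (p : ℝ[X]), 1 ≤ m → EvA p → Nrm m p →
    Tendsto (gam m p) (𝓝[>] 0) (𝓝 (p.eval 0)) ∧ Tendsto (dgam m p) (𝓝[>] 0) (𝓝 0) ∧
    Tendsto (gam m p) atTop (𝓝 0) ∧ Tendsto (fun x => x * dgam m p x) atTop (𝓝 0)

/-- OD (130 lines).  The one dimensional inequality.
PROOF.  `Z = b γ' - b' γ + (a-b) x^(-2) U` on `(0,∞)`.  By StGD and the hypotheses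
`Z' = b γ'' - b'' γ + (a'-b') x^(-2) U - 2 (a-b) x^(-3) U + (a-b) A = (A a + B b) - b'' γ - x^(-3) U Q`, `Q = 2(a-b) - x(a'-b') - m b`.  So
`Z' ≤ A a + B b` (`γ ≥ 0` StGP, `U ≥ 0` StTU, `b'' ≥ 0`, `Q ≥ 0`), and `Z(R) - Z(ε) ≤ ∫_ε^R (A a + B b)`
(`intervalIntegral.sub_le_integral_of_hasDeriv_right_of_le`).  `Z → 0` at `0` and at infinity by StGL (`b'(0) = 0`, `|a|, |b| ≤ C(1+x)`,
`|U| ≤ C x³`, `|U| ≤ C`).  `A a + B b` is integrable on `(0,∞)` (continuous, `|A|, |B| ≤ C σ^(-m-3)`).  Hypotheses: StTU StGP StGD StGL. -/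
def StOD : Prop :=
  ∀ (m : ℕ) (p : ℝ[X]) (a b a1 b1 b2 : ℝ → ℝ) (C : ℝ), 1 ≤ m → EvA p → Nrm m p →
    (∀ x, HasDerivAt a (a1 x) x) → (∀ x, HasDerivAt b (b1 x) x) → (∀ x, HasDerivAt b1 (b2 x) x) →
    Continuous a1 → Continuous b2 → (∀ x, 0 ≤ b2 x) → b1 0 = 0 →
    (∀ x, |a x| ≤ C * (1 + |x|) ∧ |b x| ≤ C * (1 + |x|) ∧ |a1 x| ≤ C ∧ |b1 x| ≤ C) →
    (∀ x, 0 < x → 0 ≤ 2 * (a x - b x) - x * (a1 x - b1 x) - m * b x) →
      0 ≤ ∫ x in Ioi (0 : ℝ), (Aa m p x * a x + Bb m p x * b x)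

/-- SEG (110 lines).  The segment functional in the variable `y = tan ψ`, `ψ = π/2 - θ`.
PROOF.  `y/σ = sin ψ = cos θ`, `σ = 1/cos ψ`, `dy = dψ/cos² ψ`: `y² σ^(-m-3) dy = sin² ψ cos^(m-1) ψ dψ`.  So the left side is
`∫_0^(π/2) f(sin ψ) sin² ψ cos^(m-1) ψ dψ = ∫_0^(π/2) f(cos θ) cos² θ sin^(m-1) θ dθ`, half of `seg (m+2) f` as `f` is even (`θ ↦ π - θ`).  Change of
variables: `integral_image_eq_integral_abs_deriv_smul` with `tan` on `(0,π/2)`, image `(0,∞)`.  Hypotheses: . -/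
def StSEG : Prop :=
  ∀ (m : ℕ) (f : ℝ → ℝ), 1 ≤ m → ContinuousOn f (Icc (-1) 1) → (∀ x ∈ Icc (-1 : ℝ) 1, f (-x) = f x) →
    ∫ y in Ioi (0 : ℝ), y ^ 2 * f (y / sg y) / sg y ^ (m + 3) = 1 / 2 * seg (m + 2) f

/-- APX (140 lines).  Approximation by even nonincreasing polynomials.
PROOF.  `F(s) = k(√s)` is continuous and nonincreasing on `[0,1]`; extend by constants.  For small `η` `F_η(s) = (1/η) ∫_s^(s+η) F` is `C¹`,
`|F_η - F| ≤ ε` on `[0,1]`, `F_η' = (F(s+η) - F(s))/η ≤ 0` continuous.  Weierstrass: a polynomial `q` with `-F_η' ≤ q ≤ -F_η' + ε` on `[0,1]`.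
`P(s) = F_η(0) - ∫_0^s q` is a polynomial (`Mink.exists_antideriv`), `P' = -q ≤ 0`, `|P - F_η| ≤ ε` on `[0,1]`.  `p₀(t) = P(t²)`; then
`p = p₀ - c` with `c = seg n p₀/seg n 1`, `|c| ≤ 2ε` because `|seg n p₀ - seg n f| ≤ 2ε seg n 1` (`seg_mono`, `seg_add`, `seg_const_mul`).
Hypotheses: . -/
def StAPX : Prop :=
  ∀ (n : ℕ) (k : ℝ → ℝ), 3 ≤ n → ContinuousOn k (Icc 0 1) → AntitoneOn k (Icc 0 1) →
    seg n (fun t => k |t|) = 0 → ∀ ε : ℝ, 0 < ε →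
    ∃ p : ℝ[X], EvA p ∧ (∀ t ∈ Icc (-1 : ℝ) 1, |p.eval t - k (|t|)| ≤ ε) ∧ seg n (fun t => p.eval t) = 0

end Pool.Agent.Helper62.MU
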