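import Pool.Agent.Helper62.Mink.Final3

/-!
# Project MU, part 2 (MP_ae3a4d_gt): the double cone test, and zonoids are not enough

THEOREM of part 2 (fourth hand-in, `MP_ae3a4d_gt.DoubleConeTest`).  Let `n = m + 2 ≥ 3`.
(A) If `f`, continuous on `[-1,1]`, generates an admissible map then for all `0 ≤ β < π/2 < α ≤ π`
`f(cos β) sin^m β / cos β - f(cos α) sin^m α / cos α + m ∫_β^α f(cos θ) sin^(m-1) θ dθ ≥ 0` (test with double cones).
(B) There is an even polynomial `f` of degree `4` such that `h_Z * f` is a support function for every zonoid `Z`, but `f` violates (A),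
so `f` does not generate an admissible map.

Known lemmas (landed, all imported here): `Mink.rr`, `Mink.d1`, `Mink.d2`, `Mink.hasDerivAt_d0`, `Mink.hasDerivAt_d1`, `Mink.conv_line`,
`Mink.hasDerivAt_param`, `Mink.integral_polar`, `Mink.sphere_integral_comp`, `Mink.sphere_integrable`, `Mink.conv_smul`,
`Mink.Nec.integral_consE`, `Mink.Nec.norm_consE`, `Mink.Nec.zonal`, `Mink.Nec.wt`, `Mink.Nec.exists_refl`, `Mink.exists_body`,
`Mink.subadd_of_admissible`, `Mink.supp_sublinear`.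
-/

set_option autoImplicit false

open MeasureTheory Metric Set Filter Topology Polynomial
open scoped RealInnerProductSpace ContDiff

namespace Pool.Agent.Helper62.MU2

open Pool.Agent.Helper62.Mink
open Pool.Agent.Helper62.Mink.Nec (consE)

/-! ## Definitions -/

/-- the two radii of curvature `p - t p'` and `(1-t²) p'' + p - t p'` of the zonal function of `p` are nonnegative -/
def LP (p : ℝ[X]) : Prop :=
  ∀ t ∈ Icc (-1 : ℝ) 1, 0 ≤ p.eval t - t * p.derivative.eval t ∧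
    0 ≤ (1 - t ^ 2) * p.derivative.derivative.eval t + (p.eval t - t * p.derivative.eval t)

/-- the zonal function `‖w‖ g(⟨e,w⟩/‖w‖)` -/
noncomputable def zf {n : ℕ} (e : E n) (g : ℝ → ℝ) (w : E n) : ℝ := ‖w‖ * g (inner ℝ e w / ‖w‖)

/-- subadditivity of `h * f` for all smooth sublinear `h` -/
def Good (n : ℕ) (f : ℝ → ℝ) : Prop :=
  ∀ h : E n → ℝ, Sublinear h → ContDiffOn ℝ ∞ h {0}ᶜ →
    ∀ x y, conv h f (x + y) ≤ conv h f x + conv h f y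

/-- the zonal inequality for the polynomial `p` -/
def Zin (m : ℕ) (f : ℝ → ℝ) (p : ℝ[X]) : Prop :=
  0 ≤ ∫ θ in (0 : ℝ)..Real.pi, f (Real.cos θ) *
    (((m : ℝ) + 1) * (p.eval (Real.cos θ) - Real.cos θ * p.derivative.eval (Real.cos θ)) +
      Real.sin θ ^ 2 * p.derivative.derivative.eval (Real.cos θ)) * Real.sin θ ^ m

/-- the zonal inequality for a body of revolution with radius `R` -/
def Rin (m : ℕ) (f R : ℝ → ℝ) : Prop :=
  0 ≤ ∫ θ in (0 : ℝ)..Real.pi, f (Real.cos θ) *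
    (m * R θ * Real.sin θ ^ (m - 1) + deriv R θ * Real.sin θ ^ m / Real.cos θ)

/-- admissible radius functions: `C¹`, `0` near the poles, `1` near the equator, monotone in between -/
structure Rad (R : ℝ → ℝ) (δ : ℝ) : Prop where
  pos : 0 < δ ∧ δ < Real.pi / 4
  c1 : ContDiff ℝ 1 R
  nn : ∀ θ, 0 ≤ R θ
  z1 : ∀ θ, θ ≤ δ → R θ = 0
  z2 : ∀ θ, Real.pi - δ ≤ θ → R θ = 0
  one : ∀ θ, |θ - Real.pi / 2| ≤ δ → R θ = 1
  up : ∀ θ, θ ≤ Real.pi / 2 → 0 ≤ deriv R θ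
  dn : ∀ θ, Real.pi / 2 ≤ θ → deriv R θ ≤ 0

/-- the double cone expression -/
noncomputable def DCe (m : ℕ) (f : ℝ → ℝ) (β α : ℝ) : ℝ :=
  f (Real.cos β) * Real.sin β ^ m / Real.cos β - f (Real.cos α) * Real.sin α ^ m / Real.cos α +
    m * ∫ θ in β..α, f (Real.cos θ) * Real.sin θ ^ (m - 1)

/-- the density of the example: `a² - (2a(m+3)/3) t² + ((m+3)(m+5)/15) t⁴` -/
noncomputable def fx (m : ℕ) (a : ℝ) : ℝ[X] :=
  C (a ^ 2) - C (2 * a * ((m : ℝ) + 3) / 3) * X ^ 2 + C (((m : ℝ) + 3) * ((m : ℝ) + 5) / 15) * X ^ 4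

/-- its transform of a segment: `a² - (2a/3)(1+τ²) + (1/15)(3+6τ²-τ⁴)` -/
noncomputable def gx (a : ℝ) : ℝ[X] :=
  C (a ^ 2) - C (2 * a / 3) * (1 + X ^ 2) + C (1 / 15) * (C 3 + C 6 * X ^ 2 - X ^ 4)

/-! ## Part A: the test -/

/-- ZA (130 lines).  Convexity of zonal functions.
PROOF.  Degree one is clear, smooth off `0` (norm and inner product are).  Subadditivity: let `x, y` be such that the line through them
avoids `0`; write its points `p₀ + τ v`, `‖v‖ = 1`, `⟨p₀,v⟩ = 0`, `a = ‖p₀‖² > 0`, `P = ⟨e,p₀⟩`, `s = ⟨e,v⟩`.  Then `zf e p (p₀ + τ v) =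
rr a τ * p((P + τ s)/rr a τ)` has second derivative `d2 p a P s τ` (`hasDerivAt_d0`, `hasDerivAt_d1`), which is `a/rr³ ((p - t p') + p'' Y)` at
`t = (P + τ s)/rr ∈ [-1,1]`, `Y = (s a - τ P)²/(a rr²)`, and `0 ≤ Y ≤ 1 - t²` (Bessel for `e` and the orthonormal pair
`(p₀+τv)/rr`, `(a v - τ p₀)/(√a rr)`).  So it is `≥ 0`: between the two quantities of `LP`.  Hence convex on such lines, `h(x+y) ≤ h(x)+h(y)`
for these `x, y`.  The other pairs by continuity: replace `x` by `x + ε z`, `z` independent of the line (`n ≥ 2`), as in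
`Mink.conv_add_le_of_key`.  Hypotheses: . -/
def StZA : Prop :=
  ∀ (n : ℕ) (e : E n) (p : ℝ[X]), 2 ≤ n → ‖e‖ = 1 → LP p →
    Sublinear (zf e (fun t => p.eval t)) ∧ ContDiffOn ℝ ∞ (zf e (fun t => p.eval t)) {0}ᶜ

/-- ZB (80 lines).  Zonal convolutions commute.
PROOF.  `y = 0`: both sides are `0`.  `y ≠ 0`: let `R` be a linear isometry with `R = R⁻¹` exchanging `e` and `ŷ = y/‖y‖` (the reflection in the
hyperplane orthogonal to `e - ŷ`, or the identity).  On the unit sphere `zf e p w = p⟨e,w⟩`; `sphere_integral_comp R` turns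
`‖y‖ ∫ p⟨e,w⟩ f⟨ŷ,w⟩ dw` into `‖y‖ ∫ p⟨e,Rw⟩ f⟨ŷ,Rw⟩ dw = ‖y‖ ∫ p⟨ŷ,w⟩ f⟨e,w⟩ dw`.  Hypotheses: . -/
def StZB : Prop :=
  ∀ (n : ℕ) (e y : E n) (p : ℝ[X]) (f : ℝ → ℝ), ‖e‖ = 1 →
    conv (zf e (fun t => p.eval t)) f y = conv (fun w => f (inner ℝ e w)) (fun t => p.eval t) y

/-- ZC (100 lines).  The second derivative at the pole.
PROOF.  By ZA and ZB `G(y) = conv F p y`, `F w = f⟨e,w⟩`, is subadditive and positively homogeneous (`conv_smul`), so `τ ↦ G(e + τ v)` is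
convex.  By `conv_line` it is `∫ F(w) rr 1 τ p((⟨e,w⟩ + τ⟨v,w⟩)/rr 1 τ) dw`, with second derivative `∫ F(w) d2 p 1 ⟨e,w⟩ ⟨v,w⟩ τ dw`
(`hasDerivAt_param` twice, as in `Mink.conv_line_convex`; replace `f` by `f (max (-1) (min 1 ·))` to have a continuous function).  At
`τ = 0` it is the integral below, and it is `≥ 0`.  Hypotheses: StZA StZB. -/
def StZC : Prop :=
  ∀ (n : ℕ) (e v : E n) (p : ℝ[X]) (f : ℝ → ℝ), 2 ≤ n → ‖e‖ = 1 → ‖v‖ = 1 → (inner ℝ e v : ℝ) = 0 →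
    ContinuousOn f (Icc (-1) 1) → LP p → Good n f →
    0 ≤ SI (fun w : E n => f (inner ℝ e w) *
      ((p.eval (inner ℝ e w) - inner ℝ e w * p.derivative.eval (inner ℝ e w)) +
        p.derivative.derivative.eval (inner ℝ e w) * (inner ℝ v w : ℝ) ^ 2))

/-- ZD (110 lines).  The zonal inequality.
PROOF.  StZC with `e = e_0`, `v = e_i`, `i = 1, .., m+1`, summed: `Σ_(i≥1) w_i² = 1 - w_0²` on the sphere, so
`0 ≤ SI (w ↦ g(w_0))`, `g(t) = f(t) ((m+1)(p - t p') + (1-t²) p'')`.  And `SI (w ↦ g(w_0)) = C ∫_0^π g(cos θ) sin^m θ dθ` with `C > 0`: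
`integral_polar` with the weight `‖w‖² wt ‖w‖` or `wt`, `integral_consE` and `Nec.zonal` (with `k = m`, `g` extended by
`g (max (-1) (min 1 ·))`, bounded and continuous).  Hypotheses: StZC. -/
def StZD : Prop :=
  ∀ (m : ℕ) (f : ℝ → ℝ), 1 ≤ m → ContinuousOn f (Icc (-1) 1) → Good (m + 2) f →
    ∀ p : ℝ[X], LP p → Zin m f p

/-- ZF (170 lines).  From polynomials to bodies with given radius function.
PROOF.  For `t ∈ [-1,1]`, `θ = arccos t`, let `λ_m(t) = R'(θ)/cos θ` (`0` near `θ = π/2`), `λ_p(t) = R(θ)/sin θ` (`0` near the poles), both `≥ 0` and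
continuous, and `K = (λ_m - λ_p)/(1-t²)` (`0` near `±1`), continuous.  On `(-1,1)` `λ_p'(t) = -t K(t)` (chain rule, `dθ/dt = -1/sin θ`:
`λ_p' = -(R' sin θ - R cos θ)/sin³ θ`), and `λ_p(0) = 1`, so `λ_p(t) = 1 - ∫_0^t s K(s) ds` on `[-1,1]`.  Let `η > 0` and `q` a polynomial with
`|q - K| ≤ η` on `[-1,1]` (Weierstrass), `p` the polynomial with `p'' = q`, `p'(0) = 0`, `p(0) = 1 + 2η` (`Mink.exists_antideriv` twice).  Then
`p - t p' = 1 + 2η - ∫_0^t s q` is within `η/2` of `λ_p + 2η`, and `(1-t²) p'' + (p - t p')` is within `3η/2` of `λ_m + 2η`: `LP p` holds.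
`Zin m f p` and `(m+1)(p - tp') + sin² θ p'' = m (p - t p') + ((1-t²)p'' + p - tp')`: with `|f| ≤ M` the integral of
`f (m λ_p + λ_m) sin^m θ` is `≥ -C M η`; let `η → 0`.  Finally `λ_p sin^m θ = R sin^(m-1) θ` (`m ≥ 1`; off the poles), `λ_m sin^m θ = R' sin^m θ/cos θ`.
Hypotheses: . -/
def StZF : Prop :=
  ∀ (m : ℕ) (f : ℝ → ℝ), 1 ≤ m → ContinuousOn f (Icc (-1) 1) → (∀ p : ℝ[X], LP p → Zin m f p) →
    ∀ (R : ℝ → ℝ) (δ : ℝ), Rad R δ → Rin m f R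

/-- ZG (170 lines).  The double cones.
PROOF.  First `0 < β < π/2 < α < π`.  Let `Ψ₁(θ) = f(cos θ) sin^m θ/cos θ + m ∫_θ^(π/2) f(cos s) sin^(m-1) s ds` on `(0,π/2)`,
`Ψ₂(θ) = -f(cos θ) sin^m θ/cos θ + m ∫_(π/2)^θ f(cos s) sin^(m-1) s ds` on `(π/2,π)`, continuous, `DCe m f β α = Ψ₁(β) + Ψ₂(α)`.  Let
`S(x) = 3x² - 2x³` on `[0,1]`, `0` left of it, `1` right of it (`C¹`, nondecreasing) and for small `ε`
`R(θ) = S((θ-β)/ε + 1) S((α-θ)/ε + 1)`: `R` goes from `0` to `1` on `[β-ε,β]` and from `1` to `0` on `[α,α+ε]`; `Rad R δ` for small `δ`.  Integration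
by parts (`Φ(θ) = m ∫_θ^(π/2) f(cos s) sin^(m-1) s ds`, `Φ(π/2) = 0`, `R(0) = 0`): `∫_0^(π/2) f (m R sin^(m-1) + R' sin^m/cos) = ∫_(β-ε)^β R' Ψ₁`, and
`∫_(π/2)^π = ∫_α^(α+ε) (-R') Ψ₂`.  Since `R' ≥ 0` has integral `1` on `[β-ε,β]` and `-R'` on `[α,α+ε]`, `0 ≤ sup_[β-ε,β] Ψ₁ + sup_[α,α+ε] Ψ₂`;
let `ε → 0`.  The cases `β = 0`, `α = π`: the expression is continuous in `(β,α)` on `[0,π/2) × (π/2,π]`.  Hypotheses: . -/
def StZG : Prop :=
  ∀ (m : ℕ) (f : ℝ → ℝ), 1 ≤ m → ContinuousOn f (Icc (-1) 1) →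
    (∀ (R : ℝ → ℝ) (δ : ℝ), Rad R δ → Rin m f R) →
    ∀ β α : ℝ, 0 ≤ β → β < Real.pi / 2 → Real.pi / 2 < α → α ≤ Real.pi → 0 ≤ DCe m f β α

/-! ## Part B: the example -/

/-- MO (150 lines).  Moments of `|⟨u,w⟩|` on the sphere.
PROOF.  Both sides depend only on `‖x‖`, `⟨u,x⟩` and are continuous; write `x = α u + β q`, `q` a unit vector orthogonal to `u`.  By
`integral_polar` (weight `e^(-r²/2)`; the radial moments `∫_0^∞ r^(k+2) e^(-r²/2) dr = (k+1) ∫_0^∞ r^k e^(-r²/2) dr`) it is the Gaussian statement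
for independent standard normal `X = ⟨u,w⟩`, `Y = ⟨q,w⟩`: `E|X| (αX+βY)² = (2α²+β²) E|X|`,
`E|X| (αX+βY)⁴ = (8α⁴ + 12α²β² + 3β⁴) E|X|` (`E|X|³ = 2E|X|`, `E|X|⁵ = 8E|X|`, `E Y² = 1`, `E Y⁴ = 3`, odd moments of `Y` vanish), and
`2α²+β² = ‖x‖² + ⟨u,x⟩²`, `8α⁴+12α²β²+3β⁴ = 3‖x‖⁴ + 6‖x‖²⟨u,x⟩² - ⟨u,x⟩⁴`.  To separate the coordinates rotate `u, q` to `e_0, e_1`
(`sphere_integral_comp`) and use `integral_consE` twice, or the product Gaussian measure on `Fin (m+2) → ℝ`.  `c = ∫ |w_0| > 0`.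
Alternative without Gaussians: `d²/dφ²` of `∫ |cos φ w_0 + sin φ w_1| w_1^(2j)`.  Hypotheses: . -/
def StMO : Prop :=
  ∀ m : ℕ, 1 ≤ m → ∃ c : ℝ, 0 < c ∧ ∀ u x : E (m + 2), ‖u‖ = 1 →
    SI (fun w : E (m + 2) => |(inner ℝ u w : ℝ)|) = c ∧
    SI (fun w : E (m + 2) => |(inner ℝ u w : ℝ)| * (inner ℝ x w : ℝ) ^ 2) =
      c * (‖x‖ ^ 2 + (inner ℝ u x : ℝ) ^ 2) / (m + 3) ∧
    SI (fun w : E (m + 2) => |(inner ℝ u w : ℝ)| * (inner ℝ x w : ℝ) ^ 4) =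
      c * (3 * ‖x‖ ^ 4 + 6 * ‖x‖ ^ 2 * (inner ℝ u x : ℝ) ^ 2 - (inner ℝ u x : ℝ) ^ 4) / ((m + 3) * (m + 5))

/-- SX (80 lines).  Segments.
PROOF.  By StMO, for `x ≠ 0`, `conv |⟨u,·⟩| fx x = c ‖x‖ gx(⟨u,x⟩/‖x‖)`, and both sides vanish for `x = 0`.  `LP (gx a)`: with `r² = 1-t²`
`(1-t²) g'' + g - t g' = (r² - a)²` and `g - t g' = a² - (2a/3) r² + r⁴/5 = (a - r²/3)² + (4/45) r⁴`.  So it is sublinear by StZA (general
`u ≠ 0`: replace `u` by `u/‖u‖`; `u = 0` trivial).  Hypotheses: StZA StMO. -/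
def StSX : Prop :=
  ∀ (m : ℕ) (a : ℝ) (u : E (m + 2)), 1 ≤ m →
    Sublinear (conv (fun w => |(inner ℝ u w : ℝ)|) (fun t => (fx m a).eval t))

/-- ZO (90 lines).  Zonoids.
PROOF.  `h(w) = ∫ |⟨u,w⟩| dρ(u)` with `ρ` a finite measure on the unit sphere (compact).  `conv h f x = ∫ conv |⟨u,·⟩| f x dρ(u)` by Fubini (the
integrand is continuous and bounded in `(u,w)`).  `x ↦ ∫ .. dρ(u)` is sublinear because every integrand is; the integrands are bounded and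
measurable in `u` for fixed `x`.  Hypotheses: StSX. -/
def StZO : Prop :=
  ∀ (m : ℕ) (a : ℝ) (ρ : Measure (sphere (0 : E (m + 2)) 1)), 1 ≤ m → IsFiniteMeasure ρ →
    Sublinear (conv (fun w => ∫ u, |(inner ℝ (u : E (m + 2)) w : ℝ)| ∂ρ) (fun t => (fx m a).eval t))

/-- NU (110 lines).  The example violates the test.
PROOF.  `a = 1/(10(m+5))`, `b = √(5a/(m+5))`, so `b² = 1/(2(m+5)²) ≤ 1/72`; `β = arccos b`, `α = π - β`, `cos α = -b`, `sin α = sin β = √(1-b²)`.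
`f` is even, `f(b) = a² (1 - (5/3)(m+3)/(m+5)) = -2m a²/(3(m+5))` (the minimum over `t²`).  `f ≤ a²` for `|t| ≤ b` (`f - a² = t² (-2a(m+3)/3 +
(m+3)(m+5)t²/15)` and `t² ≤ 5a/(m+5)`), and `α - β = π - 2 arccos b = 2 arcsin b ≤ π b` (`arcsin b ≤ (π/2) b` for `b ∈ [0,1]`: `Real.mul_le_sin`).  So
`DCe = 2 f(b) (1-b²)^(m/2)/b + m ∫_β^α f sin^(m-1) ≤ (m a²/b) ( -(4/(3(m+5))) (1-b²)^(m/2) + π b² )`, where `sin^m β = (√(1-b²))^m ≥ (1-b²)^m ≥ 1 - m b² ≥ 9/10`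
(Bernoulli), and `π b² = π/(2(m+5)²) < (4/(3(m+5))) (9/10)` since `π/(2(m+5)) ≤ π/12 < 1.2`.  Hypotheses: . -/
def StNU : Prop :=
  ∀ m : ℕ, 1 ≤ m → ∃ β : ℝ, 0 ≤ β ∧ β < Real.pi / 2 ∧
    DCe m (fun t => (fx m (1 / (10 * ((m : ℝ) + 5)))).eval t) β (Real.pi - β) < 0

end Pool.Agent.Helper62.MU2
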